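import Mathlib

/-!
Basic definitions for `k`-collapsing words.
-/

namespace Pool.Agent.Collapse

/-- The transformation induced by the word `v` when the letter `a` acts as `φ a`;
letters are applied from left to right. -/
def act {A X : Type*} (φ : A → X → X) (v : List A) (x : X) : X :=
  v.foldl (fun y a => φ a y) x

/-- The deficiency `|X| - |f(X)|` of a self-map of a finite set. -/
noncomputable def df {X : Type*} (f : X → X) : ℕ := Nat.card X - (Set.range f).ncard

/-- `w` is a `k`-collapsing word. -/
def IsCollapsing {A : Type*} (k : ℕ) (w : List A) : Prop :=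
  w ≠ [] ∧ ∀ (X : Type) [Finite X] (φ : A → X → X),
    (∃ v : List A, v ≠ [] ∧ k ≤ df (act φ v)) → k ≤ df (act φ w)

/-- `μ_k(t)`: the minimum length of a `k`-collapsing word over `t` letters. -/
noncomputable def mu (k t : ℕ) : ℕ :=
  sInf {n | ∃ w : List (Fin t), IsCollapsing k w ∧ w.length = n}

variable {A X : Type*}

@[simp] lemma act_nil (φ : A → X → X) (x : X) : act φ [] x = x := rfl

@[simp] lemma act_cons (φ : A → X → X) (a : A) (v : List A) (x : X) :
    act φ (a :: v) x = act φ v (φ a x) := rfl

lemma act_append (φ : A → X → X) (u v : List A) (x : X) :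
    act φ (u ++ v) x = act φ v (act φ u x) := by
  simp [act, List.foldl_append]

lemma act_injective (φ : A → X → X) (v : List A) (h : ∀ a ∈ v, Function.Injective (φ a)) :
    Function.Injective (act φ v) := by
  induction v with
  | nil => intro x y hxy; simpa using hxy
  | cons a v ih =>
    intro x y hxy
    simp only [act_cons] at hxy
    exact h a (by simp) (ih (fun b hb => h b (by simp [hb])) hxy)

lemma df_eq [Finite X] (f : X → X) : df f = ((Set.range f)ᶜ).ncard := by
  have := Set.ncard_add_ncard_compl (Set.range f)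
  unfold df
  omega

lemma two_le_df_iff [Finite X] (f : X → X) :
    2 ≤ df f ↔ ∃ x y, x ≠ y ∧ x ∉ Set.range f ∧ y ∉ Set.range f := by
  rw [df_eq]
  constructor
  · intro h
    obtain ⟨x, hx, y, hy, hxy⟩ := (Set.one_lt_ncard_iff_nontrivial (s := (Set.range f)ᶜ)).1 (by omega)
    exact ⟨x, y, hxy, hx, hy⟩
  · rintro ⟨x, y, hxy, hx, hy⟩
    have : 1 < ((Set.range f)ᶜ).ncard :=
      (Set.one_lt_ncard_iff_nontrivial).2 ⟨x, hx, y, hy, hxy⟩
    omega

lemma df_infix [Finite X] (φ : A → X → X) {u w : List A} (h : u <:+: w) :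
    df (act φ u) ≤ df (act φ w) := by
  obtain ⟨p, s, rfl⟩ := h
  have h1 : Set.range (act φ (p ++ u ++ s)) ⊆ (act φ s) '' (Set.range (act φ u)) := by
    rintro _ ⟨x, rfl⟩
    refine ⟨act φ u (act φ p x), ⟨_, rfl⟩, ?_⟩
    simp [act_append]
  have h2 : (Set.range (act φ (p ++ u ++ s))).ncard ≤ (Set.range (act φ u)).ncard :=
    le_trans (Set.ncard_le_ncard h1 (Set.toFinite _)) (Set.ncard_image_le (Set.toFinite _))
  unfold df
  omega

end Pool.Agent.Collapse
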