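import Pool.Agent.Collapse.Defs

namespace Pool.Agent.Collapse

variable {A X : Type*} [Finite X]

lemma pair_of_df_one (f : X → X) (hninj : ¬ Function.Injective f) (hdf : df f < 2) :
    ∃ p q, p ≠ q ∧ f p = f q ∧ ∀ x y, x ≠ y → f x = f y → x = p ∨ x = q := by
  classical
  unfold Function.Injective at hninj
  push Not at hninj
  obtain ⟨p, q, hfpq, hpq⟩ := hninj
  refine ⟨p, q, hpq, hfpq, ?_⟩
  intro x y hxy hfxy
  by_contra hcon
  push Not at hcon
  obtain ⟨hxp, hxq⟩ := hcon
  -- a representative different from `p` and `x` for `x`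
  obtain ⟨y', hy'p, hy'x, hfy'⟩ : ∃ y', y' ≠ p ∧ y' ≠ x ∧ f y' = f x := by
    by_cases hyp : y = p
    · exact ⟨q, hpq.symm, Ne.symm hxq, by rw [hfxy, hyp, hfpq]⟩
    · exact ⟨y, hyp, Ne.symm hxy, hfxy.symm⟩
  have h1 : Set.range f ⊆ f '' ({p, x} : Set X)ᶜ := by
    rintro _ ⟨z, rfl⟩
    by_cases hzp : z = p
    · exact ⟨q, by simp [hpq.symm, Ne.symm hxq], by rw [hzp, hfpq]⟩
    · by_cases hzx : z = x
      · exact ⟨y', by simp [hy'p, hy'x], by rw [hfy', hzx]⟩
      · exact ⟨z, by simp [hzp, hzx], rfl⟩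
  have h2 : (Set.range f).ncard ≤ (({p, x} : Set X)ᶜ).ncard :=
    le_trans (Set.ncard_le_ncard h1 (Set.toFinite _)) (Set.ncard_image_le (Set.toFinite _))
  have h3 := Set.ncard_add_ncard_compl ({p, x} : Set X)
  rw [Set.ncard_pair (Ne.symm hxp)] at h3
  unfold df at hdf
  omega

lemma missing_of_df_one (f : X → X) (hninj : ¬ Function.Injective f) (hdf : df f < 2) :
    ∃ e, e ∉ Set.range f ∧ ∀ z, z ≠ e → z ∈ Set.range f := by
  have hns : ¬ Function.Surjective f := fun h => hninj (Finite.injective_iff_surjective.2 h)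
  unfold Function.Surjective at hns
  push Not at hns
  obtain ⟨e, he⟩ := hns
  refine ⟨e, by simpa using he, ?_⟩
  intro z hz
  by_contra hzr
  have : 2 ≤ df f := (two_le_df_iff f).2 ⟨z, e, hz, hzr, by simpa using he⟩
  omega

lemma block_mem {φ : A → X → X} {c c' : A} {v : List A} {e e' : X}
    (hv : ∀ a ∈ v, Function.Injective (φ a)) (he : e ∉ Set.range (φ c))
    (he' : e' ∉ Set.range (φ c')) (h : df (act φ ([c] ++ v ++ [c'])) < 2) :
    ∃ y, y ≠ act φ v e ∧ φ c' y = φ c' (act φ v e) := by
  by_contra hcon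
  push Not at hcon
  have : 2 ≤ df (act φ ([c] ++ v ++ [c'])) := by
    rw [two_le_df_iff]
    refine ⟨e', φ c' (act φ v e), ?_, ?_, ?_⟩
    · intro h
      exact he' ⟨_, h.symm⟩
    · rintro ⟨z, hz⟩
      apply he'
      exact ⟨act φ ([c] ++ v) z, by rw [← hz]; simp [act_append]⟩
    · rintro ⟨z, hz⟩
      simp only [act_append, act_cons, act_nil] at hz
      by_cases hne : act φ v (φ c z) = act φ v e
      · exact he ⟨z, act_injective φ v hv hne⟩
      · exact hcon _ hne hz
  omega

lemma df_lt_two_of_invariant (φ : A → X → X) (D : Set X)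
    (h1 : ∀ c, ¬ Function.Injective (φ c) → ∃ e ∈ D, ∀ z, z ≠ e → z ∈ Set.range (φ c))
    (h2 : ∀ c, ¬ Function.Injective (φ c) → ∀ g ∈ D, ∃ y, y ≠ g ∧ φ c y = φ c g)
    (h3 : ∀ a, Function.Injective (φ a) → ∀ g ∈ D, φ a g ∈ D) (v : List A) :
    df (act φ v) < 2 := by
  have key : Function.Injective (act φ v) ∨
      ∃ g ∈ D, ∀ z, z ≠ g → z ∈ Set.range (act φ v) := by
    induction v using List.reverseRecOn with
    | nil => left; intro x y h; simpa using h
    | append_singleton u a ih =>
      by_cases ha : Function.Injective (φ a)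
      · rcases ih with ih | ⟨g, hg, ih⟩
        · left
          intro x y hxy
          simp only [act_append, act_cons, act_nil] at hxy
          exact ih (ha hxy)
        · right
          refine ⟨φ a g, h3 a ha g hg, ?_⟩
          intro z hz
          obtain ⟨z', rfl⟩ := Finite.surjective_of_injective ha z
          have : z' ≠ g := fun h => hz (by rw [h])
          obtain ⟨x, rfl⟩ := ih z' this
          exact ⟨x, by simp [act_append]⟩
      · obtain ⟨e, heD, he⟩ := h1 a ha
        right
        refine ⟨e, heD, ?_⟩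
        intro z hz
        obtain ⟨z', rfl⟩ := he z hz
        rcases ih with ih | ⟨g, hg, ih⟩
        · obtain ⟨x, rfl⟩ := Finite.surjective_of_injective ih z'
          exact ⟨x, by simp [act_append]⟩
        · by_cases hzg : z' = g
          · obtain ⟨y, hyg, hy⟩ := h2 a ha g hg
            obtain ⟨x, rfl⟩ := ih y hyg
            exact ⟨x, by simp [act_append, hy, hzg]⟩
          · obtain ⟨x, rfl⟩ := ih z' hzg
            exact ⟨x, by simp [act_append]⟩
  by_contra hcon
  obtain ⟨x, y, hxy, hx, hy⟩ := (two_le_df_iff (act φ v)).1 (by omega)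
  rcases key with key | ⟨g, hg, key⟩
  · exact hx (Finite.surjective_of_injective key x)
  · by_cases hxg : x = g
    · exact hy (key y (fun h => hxy (by rw [hxg, h])))
    · exact hx (key x hxg)

end Pool.Agent.Collapse
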