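import Pool.Agent.Collapse.Words

namespace Pool.Agent.Collapse

open Classical Finset

/-! ### A greedy covering lemma -/

lemma greedy {α β : Type*} (X : Finset α) (hX : X.Nonempty) (D : ℕ) (hD : 0 < D)
    (R : α → β → Prop) :
    ∀ (k : ℕ) (Y : Finset β),
      (∀ y ∈ Y, X.card ≤ D * (X.filter (fun x => R x y)).card) →
      Y.card * (D - 1) ^ k < D ^ k →
      ∃ F : List α, F.length ≤ k ∧ (∀ x ∈ F, x ∈ X) ∧ ∀ y ∈ Y, ∃ x ∈ F, R x y := by
  intro k
  induction k with
  | zero =>
    intro Y _ hY
    have : Y = ∅ := by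
      rw [← Finset.card_eq_zero]
      simp at hY
      simp [hY]
    exact ⟨[], by simp, by simp, by simp [this]⟩
  | succ k ih =>
    intro Y hR hY
    -- double counting
    have hdc : ∑ x ∈ X, (Y.filter (fun y => R x y)).card =
        ∑ y ∈ Y, (X.filter (fun x => R x y)).card := by
      simp only [Finset.card_filter]
      exact Finset.sum_comm
    have hex : ∃ x ∈ X, Y.card ≤ D * (Y.filter (fun y => R x y)).card := by
      by_contra hcon
      push Not at hcon
      have h1 : ∑ x ∈ X, D * (Y.filter (fun y => R x y)).card < ∑ x ∈ X, Y.card :=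
        Finset.sum_lt_sum_of_nonempty hX hcon
      rw [← Finset.mul_sum, hdc, Finset.mul_sum] at h1
      have h2 : ∑ y ∈ Y, X.card ≤ ∑ y ∈ Y, D * (X.filter (fun x => R x y)).card :=
        Finset.sum_le_sum hR
      simp only [Finset.sum_const, smul_eq_mul] at h1 h2
      rw [mul_comm Y.card X.card] at h2
      omega
    obtain ⟨x, hxX, hx⟩ := hex
    have hsplit : (Y.filter (fun y => R x y)).card + (Y.filter (fun y => ¬ R x y)).card =
        Y.card := Finset.card_filter_add_card_filter_not (s := Y) (fun y => R x y)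
    obtain ⟨F, hF1, hF2, hF3⟩ := ih (Y.filter (fun y => ¬ R x y))
      (fun y hy => hR y (Finset.mem_filter.1 hy).1) (by
        set a := (Y.filter (fun y => R x y)).card
        set b := (Y.filter (fun y => ¬ R x y)).card
        obtain ⟨d, rfl⟩ : ∃ d, D = d + 1 := ⟨D - 1, by omega⟩
        simp only [Nat.add_sub_cancel] at hY ⊢
        have h1 : b * (d + 1) ≤ d * Y.card := by nlinarith
        have h2 : b * d ^ k * (d + 1) < (d + 1) ^ k * (d + 1) := by
          calc b * d ^ k * (d + 1) = (b * (d + 1)) * d ^ k := by ring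
            _ ≤ (d * Y.card) * d ^ k := Nat.mul_le_mul_right _ h1
            _ = Y.card * d ^ (k + 1) := by ring
            _ < (d + 1) ^ (k + 1) := hY
            _ = (d + 1) ^ k * (d + 1) := by ring
        exact lt_of_mul_lt_mul_right h2 (Nat.zero_le _))
    refine ⟨x :: F, by simp; omega, ?_, ?_⟩
    · intro z hz
      rw [List.mem_cons] at hz
      rcases hz with rfl | hz
      · exact hxX
      · exact hF2 z hz
    · intro y hy
      by_cases hRxy : R x y
      · exact ⟨x, by simp, hRxy⟩
      · obtain ⟨z, hz, hzy⟩ := hF3 y (Finset.mem_filter.2 ⟨hy, hRxy⟩)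
        exact ⟨z, by simp [hz], hzy⟩

lemma two_mul_pow_le (d : ℕ) : 2 * d ^ (d + 1) ≤ (d + 1) ^ (d + 1) := by
  have key : ∀ n : ℕ, d ^ (n + 1) + (n + 1) * d ^ n ≤ (d + 1) ^ (n + 1) := by
    intro n
    induction n with
    | zero => simp
    | succ n ih =>
      calc d ^ (n + 1 + 1) + (n + 1 + 1) * d ^ (n + 1)
          ≤ (d + 1) * (d ^ (n + 1) + (n + 1) * d ^ n) := by
            ring_nf
            nlinarith [Nat.zero_le (d ^ n), Nat.zero_le (n * d ^ n)]
        _ ≤ (d + 1) * (d + 1) ^ (n + 1) := Nat.mul_le_mul_left _ ih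
        _ = (d + 1) ^ (n + 1 + 1) := by ring
  have := key d
  have h2 : d ^ (d + 1) ≤ (d + 1) * d ^ d := by
    rw [pow_succ, mul_comm]
    exact Nat.mul_le_mul_right _ (by omega)
  omega

lemma greedy_log {α β : Type*} (X : Finset α) (hX : X.Nonempty) (D : ℕ) (hD : 0 < D)
    (R : α → β → Prop) (l : ℕ) (Y : Finset β)
    (hR : ∀ y ∈ Y, X.card ≤ D * (X.filter (fun x => R x y)).card) (hY : Y.card < 2 ^ l) :
    ∃ F : List α, F.length ≤ D * l ∧ ∀ y ∈ Y, ∃ x ∈ F, R x y := by
  obtain ⟨F, h1, _, h3⟩ := greedy X hX D hD R (D * l) Y hR (by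
    obtain ⟨d, rfl⟩ : ∃ d, D = d + 1 := ⟨D - 1, by omega⟩
    simp only [Nat.add_sub_cancel]
    have h1 := two_mul_pow_le d
    have h2 : 2 ^ l * (d ^ ((d + 1) * l)) ≤ (d + 1) ^ ((d + 1) * l) := by
      rw [pow_mul, pow_mul, ← mul_pow]
      exact Nat.pow_le_pow_left h1 l
    rcases Nat.eq_zero_or_pos (d ^ ((d + 1) * l)) with h0 | h0
    · rw [h0]
      simp only [mul_zero]
      positivity
    · calc Y.card * d ^ ((d + 1) * l) < 2 ^ l * d ^ ((d + 1) * l) :=
            Nat.mul_lt_mul_of_pos_right hY h0
        _ ≤ _ := h2)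
  exact ⟨F, h1, h3⟩

/-! ### Counting -/

lemma card_block {α : Type*} [Fintype α] (h : ℕ) (X S : Finset α) (hXS : Disjoint X S) :
    h * X.card * S.card ^ (h - 1) ≤
      ((univ : Finset (Fin h → α)).filter
        (fun g => ∃ i, g i ∈ X ∧ ∀ j, j ≠ i → g j ∈ S)).card := by
  have hsub : (univ : Finset (Fin h)).biUnion
      (fun i => Fintype.piFinset (fun j => if j = i then X else S)) ⊆
      ((univ : Finset (Fin h → α)).filter (fun g => ∃ i, g i ∈ X ∧ ∀ j, j ≠ i → g j ∈ S)) := by
    intro g hg
    simp only [mem_biUnion, mem_univ, true_and, Fintype.mem_piFinset] at hg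
    obtain ⟨i, hi⟩ := hg
    simp only [mem_filter, mem_univ, true_and]
    refine ⟨i, by simpa using hi i, ?_⟩
    intro j hj
    simpa [hj] using hi j
  refine le_trans (le_of_eq ?_) (Finset.card_le_card hsub)
  rw [Finset.card_biUnion]
  · have : ∀ i : Fin h, (Fintype.piFinset (fun j => if j = i then X else S)).card =
        X.card * S.card ^ (h - 1) := by
      intro i
      rw [Fintype.card_piFinset, ← Finset.mul_prod_erase univ _ (mem_univ i)]
      simp only [if_true]
      congr 1
      rw [Finset.prod_congr rfl (g := fun _ => S.card)]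
      · simp
      · intro j hj
        have : j ≠ i := (Finset.mem_erase.1 hj).1
        simp [this]
    simp only [this, Finset.sum_const, Finset.card_univ, Fintype.card_fin, smul_eq_mul]
    ring
  · intro i _ i' _ hii'
    rw [Function.onFun, Finset.disjoint_left]
    intro g hg hg'
    rw [Fintype.mem_piFinset] at hg hg'
    have h1 := hg i
    have h2 := hg' i
    simp only [if_true] at h1
    simp only [hii', if_false] at h2
    exact (Finset.disjoint_left.1 hXS h1) h2

lemma card_block_adj {α : Type*} [Fintype α] (h : ℕ) (J U S : Finset α) (hJU : Disjoint J U)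
    (hJS : Disjoint J S) :
    h * (J.card * U.card) * S.card ^ (h - 1) ≤
      ((univ : Finset (Fin (h + 1) → α)).filter
        (fun g => ∃ i : Fin h, g i.castSucc ∈ J ∧ g i.succ ∈ U ∧
          ∀ j, j ≠ i.castSucc → j ≠ i.succ → g j ∈ S)).card := by
  have hsub : (univ : Finset (Fin h)).biUnion
      (fun i => Fintype.piFinset (fun j : Fin (h + 1) =>
        if j = i.castSucc then J else if j = i.succ then U else S)) ⊆
      ((univ : Finset (Fin (h + 1) → α)).filter
        (fun g => ∃ i : Fin h, g i.castSucc ∈ J ∧ g i.succ ∈ U ∧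
          ∀ j, j ≠ i.castSucc → j ≠ i.succ → g j ∈ S)) := by
    intro g hg
    simp only [mem_biUnion, mem_univ, true_and, Fintype.mem_piFinset] at hg
    obtain ⟨i, hi⟩ := hg
    simp only [mem_filter, mem_univ, true_and]
    have hne : i.succ ≠ i.castSucc := by
      intro h
      have := congrArg Fin.val h
      simp at this
    refine ⟨i, by simpa using hi i.castSucc, by simpa [hne] using hi i.succ, ?_⟩
    intro j hj hj'
    simpa [hj, hj'] using hi j
  refine le_trans (le_of_eq ?_) (Finset.card_le_card hsub)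
  rw [Finset.card_biUnion]
  · have : ∀ i : Fin h, (Fintype.piFinset (fun j : Fin (h + 1) =>
        if j = i.castSucc then J else if j = i.succ then U else S)).card =
        J.card * U.card * S.card ^ (h - 1) := by
      intro i
      have hne : i.succ ≠ i.castSucc := by
        intro h
        have := congrArg Fin.val h
        simp at this
      rw [Fintype.card_piFinset, ← Finset.mul_prod_erase univ _ (mem_univ i.castSucc),
        ← Finset.mul_prod_erase (univ.erase i.castSucc) _
          (Finset.mem_erase.2 ⟨hne, mem_univ i.succ⟩)]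
      simp only [if_true, hne, if_false]
      rw [Finset.prod_congr rfl (g := fun _ => S.card)]
      · rw [Finset.prod_const, Finset.card_erase_of_mem
          (Finset.mem_erase.2 ⟨hne, mem_univ i.succ⟩), Finset.card_erase_of_mem (mem_univ _)]
        simp only [Finset.card_univ, Fintype.card_fin, Nat.add_sub_cancel]
        ring
      · intro j hj
        have h1 := Finset.mem_erase.1 hj
        have h2 := Finset.mem_erase.1 h1.2
        simp [h1.1, h2.1]
    simp only [this, Finset.sum_const, Finset.card_univ, Fintype.card_fin, smul_eq_mul]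
    ring
  · intro i _ i' _ hii'
    rw [Function.onFun, Finset.disjoint_left]
    intro g hg hg'
    rw [Fintype.mem_piFinset] at hg hg'
    have h1 := hg i.castSucc
    have h2 := hg' i.castSucc
    simp only [if_true] at h1
    have hne : i.castSucc ≠ i'.castSucc := fun h => hii' (Fin.castSucc_injective _ h)
    simp only [hne, if_false] at h2
    split_ifs at h2 with h3
    · exact (Finset.disjoint_left.1 hJU h1) h2
    · exact (Finset.disjoint_left.1 hJS h1) h2

lemma card_small (t Q : ℕ) :
    ((univ : Finset (Finset (Fin t))).filter (fun S => S.card ≤ Q)).card ≤ (t + 1) ^ Q := by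
  have hsub : (univ : Finset (Finset (Fin t))).filter (fun S => S.card ≤ Q) ⊆
      (univ : Finset (Fin Q → Option (Fin t))).image
        (fun g => univ.filter (fun x => ∃ i, g i = some x)) := by
    intro S hS
    rw [mem_filter] at hS
    rw [mem_image]
    let e := S.equivFin
    refine ⟨fun i => if h : i.val < S.card then some (e.symm ⟨i.val, h⟩).val else none,
      mem_univ _, ?_⟩
    ext x
    simp only [mem_filter, mem_univ, true_and]
    constructor
    · rintro ⟨i, hi⟩
      split_ifs at hi with h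
      · simp only [Option.some.injEq] at hi
        rw [← hi]
        exact (e.symm ⟨i.val, h⟩).2
    · intro hx
      have hlt : (e ⟨x, hx⟩).val < S.card := (e ⟨x, hx⟩).2
      refine ⟨⟨(e ⟨x, hx⟩).val, lt_of_lt_of_le hlt hS.2⟩, ?_⟩
      simp [hlt]
  refine le_trans (Finset.card_le_card hsub) (le_trans Finset.card_image_le ?_)
  simp

/-- The class of triples handled at level `q`. -/
def Cls {t : ℕ} (q : ℕ) (X : Finset (Fin t) × Finset (Fin t) × Finset (Fin t)) : Prop :=
  Disjoint X.1 X.2.1 ∧ Disjoint X.1 X.2.2 ∧ Disjoint X.2.1 X.2.2 ∧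
  X.1.card ≤ q ∧ X.2.1.card ≤ q ∧ X.2.2.card ≤ q ∧
  q ^ 2 ≤ X.1.card * X.2.1.card * X.2.2.card

lemma pow_half {t s q h k : ℕ} (ht : 0 < t) (hs : t ≤ s + 3 * q) (hk : k ≤ 3 * (h - 1))
    (hq : h = 1 ∨ 18 * q * h ≤ t) : t ^ k ≤ 2 * s ^ k := by
  rcases hq with rfl | hq
  · have : k = 0 := by omega
    subst this; simp
  · have htR : (0 : ℝ) < t := by exact_mod_cast ht
    have hsR : (t : ℝ) ≤ s + 3 * q := by exact_mod_cast hs
    have hqR : (18 : ℝ) * q * h ≤ t := by exact_mod_cast hq
    have hkR : (k : ℝ) ≤ 3 * h := by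
      have : k ≤ 3 * h := by omega
      exact_mod_cast this
    have hq0 : (0 : ℝ) ≤ q := Nat.cast_nonneg _
    have hh0 : (0 : ℝ) ≤ h := Nat.cast_nonneg _
    rcases Nat.eq_zero_or_pos k with rfl | hkpos
    · simp
    have hh1 : (1 : ℝ) ≤ h := by
      have : 1 ≤ h := by omega
      exact_mod_cast this
    have hqt : 3 * (q : ℝ) / t ≤ 1 := by
      rw [div_le_one htR]
      nlinarith
    have hbern := one_add_mul_le_pow (a := -(3 * (q : ℝ) / t)) (by linarith) k
    have h1 : (1 : ℝ) / 2 ≤ 1 + k * (-(3 * (q : ℝ) / t)) := by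
      have : (k : ℝ) * (3 * q / t) ≤ 1 / 2 := by
        rw [mul_div_assoc', div_le_iff₀ htR]
        nlinarith
      linarith
    have h2 : (1 + -(3 * (q : ℝ) / t)) ≤ s / t := by
      rw [le_div_iff₀ htR]
      have : (1 + -(3 * (q : ℝ) / t)) * t = t - 3 * q := by
        field_simp
        ring
      rw [this]; linarith
    have h3 : (1 + -(3 * (q : ℝ) / t)) ^ k ≤ (s / t) ^ k :=
      pow_le_pow_left₀ (by linarith) h2 k
    have h4 : (1 : ℝ) / 2 ≤ (s / t) ^ k := le_trans h1 (le_trans hbern h3)
    rw [div_pow, le_div_iff₀ (by positivity)] at h4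
    have h5 : (t : ℝ) ^ k ≤ 2 * s ^ k := by linarith
    exact_mod_cast h5

end Pool.Agent.Collapse
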