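import Pool.Agent.Collapse.Cover

namespace Pool.Agent.Collapse

open Classical Finset

/-! ### From functions to words -/

lemma ofFn_split {α : Type*} {h : ℕ} (g : Fin h → α) (i : Fin h) :
    List.ofFn g = (List.ofFn g).take i.val ++ [g i] ++ (List.ofFn g).drop (i.val + 1) := by
  have hlen : i.val < (List.ofFn g).length := by simp
  conv_lhs => rw [← List.take_append_drop i.val (List.ofFn g)]
  rw [List.drop_eq_getElem_cons hlen]
  simp

lemma mem_take_ofFn {α : Type*} {h : ℕ} (g : Fin h → α) (i : ℕ) (x : α)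
    (hx : x ∈ (List.ofFn g).take i) : ∃ j : Fin h, j.val < i ∧ g j = x := by
  rw [List.mem_iff_getElem] at hx
  obtain ⟨n, hn, rfl⟩ := hx
  simp only [List.length_take, List.length_ofFn] at hn
  exact ⟨⟨n, by omega⟩, by simp; omega, by simp⟩

lemma mem_drop_ofFn {α : Type*} {h : ℕ} (g : Fin h → α) (i : ℕ) (x : α)
    (hx : x ∈ (List.ofFn g).drop i) : ∃ j : Fin h, i ≤ j.val ∧ g j = x := by
  rw [List.mem_iff_getElem] at hx
  obtain ⟨n, hn, rfl⟩ := hx
  simp only [List.length_drop, List.length_ofFn] at hn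
  exact ⟨⟨i + n, by omega⟩, by simp, by simp⟩

lemma block_decomp {α : Type*} {h : ℕ} (g : Fin h → α) (X S : Finset α)
    (hg : ∃ i, g i ∈ X ∧ ∀ j, j ≠ i → g j ∈ S) :
    ∃ l x r, List.ofFn g = l ++ [x] ++ r ∧ x ∈ X ∧ ∀ y ∈ l ++ r, y ∈ S := by
  obtain ⟨i, hi, hj⟩ := hg
  refine ⟨_, _, _, ofFn_split g i, hi, ?_⟩
  intro y hy
  rw [List.mem_append] at hy
  rcases hy with hy | hy
  · obtain ⟨j, hj1, rfl⟩ := mem_take_ofFn g _ _ hy
    exact hj j (by intro h; rw [h] at hj1; exact lt_irrefl _ hj1)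
  · obtain ⟨j, hj1, rfl⟩ := mem_drop_ofFn g _ _ hy
    exact hj j (by intro h; rw [h] at hj1; omega)

lemma block_adj_decomp {α : Type*} {h : ℕ} (g : Fin (h + 1) → α) (J U S : Finset α)
    (hg : ∃ i : Fin h, g i.castSucc ∈ J ∧ g i.succ ∈ U ∧
      ∀ j, j ≠ i.castSucc → j ≠ i.succ → g j ∈ S) :
    ∃ l a b r, List.ofFn g = l ++ [a, b] ++ r ∧ a ∈ J ∧ b ∈ U ∧ ∀ y ∈ l ++ r, y ∈ S := by
  obtain ⟨i, hi, hi', hj⟩ := hg
  have h1 := ofFn_split g i.castSucc
  have hlen : i.val + 1 < (List.ofFn g).length := by simp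
  have h2 : (List.ofFn g).drop (i.castSucc.val + 1) =
      g i.succ :: (List.ofFn g).drop (i.val + 1 + 1) := by
    have : i.castSucc.val + 1 = i.val + 1 := by simp
    rw [this, List.drop_eq_getElem_cons hlen]
    simp
  refine ⟨(List.ofFn g).take i.val, g i.castSucc, g i.succ, (List.ofFn g).drop (i.val + 1 + 1),
    ?_, hi, hi', ?_⟩
  · rw [h2] at h1
    conv_lhs => rw [h1]
    simp
  · intro y hy
    rw [List.mem_append] at hy
    rcases hy with hy | hy
    · obtain ⟨j, hj1, rfl⟩ := mem_take_ofFn g _ _ hy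
      refine hj j ?_ ?_
      · intro h; rw [h] at hj1; simp at hj1
      · intro h; rw [h] at hj1; simp at hj1
    · obtain ⟨j, hj1, rfl⟩ := mem_drop_ofFn g _ _ hy
      refine hj j ?_ ?_
      · intro h; rw [h] at hj1; simp at hj1
      · intro h; rw [h] at hj1; simp at hj1

/-- logarithmic factor -/
def Lg (t : ℕ) : ℕ := Nat.log 2 (t + 1) + 1

lemma lt_two_pow_Lg (t : ℕ) : t + 1 < 2 ^ Lg t := Nat.lt_pow_succ_log_self (by norm_num) _

lemma Lg_pos (t : ℕ) : 1 ≤ Lg t := by unfold Lg; omega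

/-- the finite set of triples to be handled -/
noncomputable def triples (t Q h : ℕ) :
    Finset (Finset (Fin t) × Finset (Fin t) × Finset (Fin t)) :=
  univ.filter (fun X => ∃ q, 1 ≤ q ∧ q ≤ Q ∧ t ≤ 36 * q * h ∧ Cls q X)

lemma card_triples (t Q h : ℕ) : (triples t Q h).card < 2 ^ (3 * Q * Lg t + 1) := by
  have hsub : triples t Q h ⊆
      ((univ : Finset (Finset (Fin t))).filter (fun S => S.card ≤ Q)) ×ˢ
      (((univ : Finset (Finset (Fin t))).filter (fun S => S.card ≤ Q)) ×ˢ
      ((univ : Finset (Finset (Fin t))).filter (fun S => S.card ≤ Q))) := by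
    intro X hX
    unfold triples at hX
    simp only [mem_filter, mem_univ, true_and] at hX
    obtain ⟨q, _, hq, _, hc⟩ := hX
    simp only [mem_product, mem_filter, mem_univ, true_and]
    exact ⟨hc.2.2.2.1.trans hq, hc.2.2.2.2.1.trans hq, hc.2.2.2.2.2.1.trans hq⟩
  have h1 := Finset.card_le_card hsub
  rw [card_product, card_product] at h1
  have h2 := card_small t Q
  have h3 : (t + 1) ^ Q ≤ 2 ^ (Q * Lg t) := by
    rw [mul_comm, pow_mul]
    exact Nat.pow_le_pow_left (lt_two_pow_Lg t).le Q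
  have h4 := h2.trans h3
  calc (triples t Q h).card ≤ _ := h1
    _ ≤ 2 ^ (Q * Lg t) * (2 ^ (Q * Lg t) * 2 ^ (Q * Lg t)) :=
        Nat.mul_le_mul h4 (Nat.mul_le_mul h4 h4)
    _ = 2 ^ (3 * Q * Lg t) := by rw [← pow_add, ← pow_add]; congr 1; ring
    _ < 2 ^ (3 * Q * Lg t + 1) := Nat.pow_lt_pow_right (by norm_num) (by omega)

lemma card_compl_union {t q : ℕ} {X1 X2 X3 : Finset (Fin t)} (h1 : X1.card ≤ q)
    (h2 : X2.card ≤ q) (h3 : X3.card ≤ q) : t ≤ ((X1 ∪ X2 ∪ X3)ᶜ).card + 3 * q := by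
  have h4 : (X1 ∪ X2 ∪ X3).card ≤ X1.card + X2.card + X3.card :=
    (card_union_le _ _).trans (Nat.add_le_add_right (card_union_le _ _) _)
  have h5 := Finset.card_compl (X1 ∪ X2 ∪ X3)
  rw [Fintype.card_fin] at h5
  omega

/-- Family for large `N`: doubled words with an adjacent pair. -/
lemma family1 (t h Q : ℕ) (ht : 1 ≤ t) (hh : 1 ≤ h) (hsm : h = 1 ∨ 18 * Q * h ≤ t) :
    ∃ w : List (Fin t), w.length ≤ (6 * h) * (2592 * t * (3 * Q * Lg t + 1)) ∧
      ∀ q X1 X2 X3, 1 ≤ q → q ≤ Q → t ≤ 36 * q * h → Cls q (X1, X2, X3) →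
        ∃ L a b R, (L ++ [a, b] ++ R) ++ (L ++ [a, b] ++ R) <:+: w ∧ a ∈ X2 ∧ b ∈ X3 ∧
          (∃ c ∈ L, c ∈ X1) ∧ ∀ x ∈ L ++ R, x ∉ X2 ∧ x ∉ X3 := by
  have : NeZero t := ⟨by omega⟩
  let S : Finset (Fin t) × Finset (Fin t) × Finset (Fin t) → Finset (Fin t) :=
    fun X => (X.1 ∪ X.2.1 ∪ X.2.2)ᶜ
  let R : ((Fin h → Fin t) × (Fin (h + 1) → Fin t)) →
      (Finset (Fin t) × Finset (Fin t) × Finset (Fin t)) → Prop := fun f X =>
    (∃ i, f.1 i ∈ X.1 ∧ ∀ j, j ≠ i → f.1 j ∈ S X) ∧
    (∃ i : Fin h, f.2 i.castSucc ∈ X.2.1 ∧ f.2 i.succ ∈ X.2.2 ∧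
          ∀ j, j ≠ i.castSucc → j ≠ i.succ → f.2 j ∈ S X)
  obtain ⟨F, hF1, hF2⟩ := greedy_log (univ : Finset ((Fin h → Fin t) × (Fin (h + 1) → Fin t)))
    univ_nonempty (2592 * t) (by omega) R (3 * Q * Lg t + 1) (triples t Q h) (by
      intro X hX
      unfold triples at hX
      simp only [mem_filter, mem_univ, true_and] at hX
      obtain ⟨q, hq1, hqQ, htq, hd1, hd2, hd3, hc1, hc2, hc3, hprod⟩ := hX
      have hfil : ∀ inst : DecidablePred (fun f => R f X),
          (@Finset.filter _ (fun f => R f X) inst univ) =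
          (univ.filter (fun g : Fin h → Fin t => ∃ i, g i ∈ X.1 ∧ ∀ j, j ≠ i → g j ∈ S X)) ×ˢ
          (univ.filter (fun g : Fin (h + 1) → Fin t => ∃ i : Fin h, g i.castSucc ∈ X.2.1 ∧
            g i.succ ∈ X.2.2 ∧ ∀ j, j ≠ i.castSucc → j ≠ i.succ → g j ∈ S X)) := by
        intro inst
        ext f
        simp only [mem_filter, mem_univ, true_and, mem_product, R]
      rw [hfil, card_product]
      have hdS1 : Disjoint X.1 (S X) := by
        rw [Finset.disjoint_left]; intro a ha hb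
        simp only [S, mem_compl, mem_union, not_or] at hb
        exact hb.1.1 ha
      have hdS2 : Disjoint X.2.1 (S X) := by
        rw [Finset.disjoint_left]; intro a ha hb
        simp only [S, mem_compl, mem_union, not_or] at hb
        exact hb.1.2 ha
      have b1 := card_block h X.1 (S X) hdS1
      have b2 := card_block_adj h X.2.1 X.2.2 (S X) hd3 hdS2
      have hs := card_compl_union hc1 hc2 hc3
      have hsmall : h = 1 ∨ 18 * q * h ≤ t := by
        rcases hsm with h1 | h1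
        · exact Or.inl h1
        · right
          refine le_trans ?_ h1
          exact Nat.mul_le_mul_right _ (Nat.mul_le_mul_left _ hqQ)
      have hp := pow_half (k := 2 * (h - 1)) ht hs (by omega) hsmall
      have hcard : (univ : Finset ((Fin h → Fin t) × (Fin (h + 1) → Fin t))).card =
          t ^ 3 * t ^ (2 * (h - 1)) := by
        rw [Finset.card_univ, Fintype.card_prod]
        simp only [Fintype.card_fun, Fintype.card_fin]
        rw [← pow_add, ← pow_add]
        congr 1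
        omega
      rw [hcard]
      set n1 := X.1.card
      set n2 := X.2.1.card
      set n3 := X.2.2.card
      set s := (S X).card with hsdef
      have hp' : t ^ (2 * (h - 1)) ≤ 2 * s ^ (2 * (h - 1)) := hp
      have hkey : 2 * t ^ 3 ≤ 2592 * t * (h ^ 2 * (n1 * n2 * n3)) := by
        have e1 : t ^ 2 ≤ (36 * q * h) ^ 2 := Nat.pow_le_pow_left htq 2
        have e2 : t ^ 2 ≤ 1296 * (h ^ 2 * (n1 * n2 * n3)) := by
          calc t ^ 2 ≤ (36 * q * h) ^ 2 := e1
            _ = 1296 * (h ^ 2 * q ^ 2) := by ring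
            _ ≤ 1296 * (h ^ 2 * (n1 * n2 * n3)) :=
              Nat.mul_le_mul_left _ (Nat.mul_le_mul_left _ hprod)
        calc 2 * t ^ 3 = 2 * t * t ^ 2 := by ring
          _ ≤ 2 * t * (1296 * (h ^ 2 * (n1 * n2 * n3))) := Nat.mul_le_mul_left _ e2
          _ = _ := by ring
      calc t ^ 3 * t ^ (2 * (h - 1)) ≤ t ^ 3 * (2 * s ^ (2 * (h - 1))) :=
            Nat.mul_le_mul_left _ hp'
        _ = (2 * t ^ 3) * s ^ (2 * (h - 1)) := by ring
        _ ≤ (2592 * t * (h ^ 2 * (n1 * n2 * n3))) * s ^ (2 * (h - 1)) :=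
            Nat.mul_le_mul_right _ hkey
        _ = 2592 * t * ((h * n1 * s ^ (h - 1)) * (h * (n2 * n3) * s ^ (h - 1))) := by
            rw [two_mul, pow_add]; ring
        _ ≤ _ := by
            refine Nat.mul_le_mul_left _ (Nat.mul_le_mul ?_ ?_)
            · convert b1
            · convert b2)
    (card_triples t Q h)
  let word : ((Fin h → Fin t) × (Fin (h + 1) → Fin t)) → List (Fin t) := fun f =>
    (List.ofFn f.1 ++ List.ofFn f.2) ++ (List.ofFn f.1 ++ List.ofFn f.2)
  refine ⟨F.flatMap word, ?_, ?_⟩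
  · rw [List.length_flatMap]
    have h1 : ∀ n ∈ F.map (fun f => (word f).length), n ≤ 6 * h := by
      intro n hn
      rw [List.mem_map] at hn
      obtain ⟨f, _, rfl⟩ := hn
      simp only [word, List.length_append, List.length_ofFn]
      omega
    have h2 := List.sum_le_card_nsmul _ _ h1
    simp only [List.length_map, smul_eq_mul] at h2
    refine h2.trans ?_
    rw [mul_comm]
    exact Nat.mul_le_mul_left _ hF1
  · intro q X1 X2 X3 hq1 hqQ htq hcls
    obtain ⟨f, hf, hR1, hR2⟩ := hF2 (X1, X2, X3) (by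
      unfold triples
      simp only [mem_filter, mem_univ, true_and]
      exact ⟨q, hq1, hqQ, htq, hcls⟩)
    obtain ⟨l, x, r, e1, hx, hlr⟩ := block_decomp f.1 _ _ hR1
    obtain ⟨l', a, b, r', e2, ha, hb, hlr'⟩ := block_adj_decomp f.2 _ _ _ hR2
    refine ⟨l ++ [x] ++ r ++ l', a, b, r', ?_, ha, hb, ⟨x, by simp, hx⟩, ?_⟩
    · have : word f <:+: F.flatMap word := by
        rw [List.flatMap_def]
        exact List.infix_of_mem_flatten (List.mem_map.2 ⟨f, hf, rfl⟩)
      refine List.IsInfix.trans ?_ this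
      simp only [word]
      rw [e1, e2]
      simp
    · obtain ⟨hd1, hd2, hd3, _⟩ := hcls
      intro y hy
      have hcase : y ∈ S (X1, X2, X3) ∨ y = x := by
        simp only [List.mem_append, List.mem_singleton] at hy
        rcases hy with (((hy | hy) | hy) | hy) | hy
        · exact Or.inl (hlr y (by simp [hy]))
        · exact Or.inr hy
        · exact Or.inl (hlr y (by simp [hy]))
        · exact Or.inl (hlr' y (by simp [hy]))
        · exact Or.inl (hlr' y (by simp [hy]))
      rcases hcase with hy | rfl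
      · simp only [S, mem_compl, mem_union, not_or] at hy
        exact ⟨hy.1.2, hy.2⟩
      · exact ⟨Finset.disjoint_left.1 hd1 hx, Finset.disjoint_left.1 hd2 hx⟩

/-- Family for small `N`: pieces with exactly one letter in `X1`, exactly one in `X2` and at
least one in `X3`. -/
lemma family2 (t h Q : ℕ) (ht : 1 ≤ t) (hh : 1 ≤ h) (hsm : h = 1 ∨ 18 * Q * h ≤ t) :
    ∃ w : List (Fin t), w.length ≤
        (90 * h ^ 2) * (2592 * (t / h + 1) * (3 * Q * Lg t + 1)) ∧
      ∀ q X1 X2 X3, 1 ≤ q → q ≤ Q → t ≤ 36 * q * h → Cls q (X1, X2, X3) →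
        ∃ l c r z a y, piece (l ++ [c] ++ r) <:+: w ∧ c ∈ X1 ∧ a ∈ X2 ∧
          r ++ l = z ++ [a] ++ y ∧ (∀ b ∈ z ++ y, b ∉ X1 ∧ b ∉ X2) ∧ ∃ b ∈ z ++ y, b ∈ X3 := by
  have : NeZero t := ⟨by omega⟩
  let S : Finset (Fin t) × Finset (Fin t) × Finset (Fin t) → Finset (Fin t) :=
    fun X => (X.1 ∪ X.2.1 ∪ X.2.2)ᶜ
  let R : ((Fin h → Fin t) × (Fin h → Fin t) × (Fin h → Fin t)) →
      (Finset (Fin t) × Finset (Fin t) × Finset (Fin t)) → Prop := fun f X =>
    (∃ i, f.1 i ∈ X.1 ∧ ∀ j, j ≠ i → f.1 j ∈ S X) ∧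
    (∃ i, f.2.1 i ∈ X.2.1 ∧ ∀ j, j ≠ i → f.2.1 j ∈ S X) ∧
    (∃ i, f.2.2 i ∈ X.2.2 ∧ ∀ j, j ≠ i → f.2.2 j ∈ S X)
  obtain ⟨F, hF1, hF2⟩ := greedy_log
    (univ : Finset ((Fin h → Fin t) × (Fin h → Fin t) × (Fin h → Fin t)))
    univ_nonempty (2592 * (t / h + 1)) (by positivity) R (3 * Q * Lg t + 1) (triples t Q h) (by
      intro X hX
      unfold triples at hX
      simp only [mem_filter, mem_univ, true_and] at hX
      obtain ⟨q, hq1, hqQ, htq, hd1, hd2, hd3, hc1, hc2, hc3, hprod⟩ := hX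
      have hfil : ∀ inst : DecidablePred (fun f => R f X),
          (@Finset.filter _ (fun f => R f X) inst univ) =
          (univ.filter (fun g : Fin h → Fin t => ∃ i, g i ∈ X.1 ∧ ∀ j, j ≠ i → g j ∈ S X)) ×ˢ
          ((univ.filter (fun g : Fin h → Fin t => ∃ i, g i ∈ X.2.1 ∧ ∀ j, j ≠ i → g j ∈ S X)) ×ˢ
          (univ.filter (fun g : Fin h → Fin t => ∃ i, g i ∈ X.2.2 ∧
            ∀ j, j ≠ i → g j ∈ S X))) := by
        intro inst
        ext f
        simp only [mem_filter, mem_univ, true_and, mem_product, R]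
      rw [hfil, card_product, card_product]
      have hdS1 : Disjoint X.1 (S X) := by
        rw [Finset.disjoint_left]; intro a ha hb
        simp only [S, mem_compl, mem_union, not_or] at hb
        exact hb.1.1 ha
      have hdS2 : Disjoint X.2.1 (S X) := by
        rw [Finset.disjoint_left]; intro a ha hb
        simp only [S, mem_compl, mem_union, not_or] at hb
        exact hb.1.2 ha
      have hdS3 : Disjoint X.2.2 (S X) := by
        rw [Finset.disjoint_left]; intro a ha hb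
        simp only [S, mem_compl, mem_union, not_or] at hb
        exact hb.2 ha
      have b1 := card_block h X.1 (S X) hdS1
      have b2 := card_block h X.2.1 (S X) hdS2
      have b3 := card_block h X.2.2 (S X) hdS3
      have hs := card_compl_union hc1 hc2 hc3
      have hsmall : h = 1 ∨ 18 * q * h ≤ t := by
        rcases hsm with h1 | h1
        · exact Or.inl h1
        · right
          refine le_trans ?_ h1
          exact Nat.mul_le_mul_right _ (Nat.mul_le_mul_left _ hqQ)
      have hp := pow_half (k := 3 * (h - 1)) ht hs (le_refl _) hsmall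
      have hcard : (univ : Finset ((Fin h → Fin t) × (Fin h → Fin t) × (Fin h → Fin t))).card =
          t ^ 3 * t ^ (3 * (h - 1)) := by
        rw [Finset.card_univ, Fintype.card_prod, Fintype.card_prod]
        simp only [Fintype.card_fun, Fintype.card_fin]
        rw [← pow_add, ← pow_add, ← pow_add]
        congr 1
        omega
      rw [hcard]
      set n1 := X.1.card
      set n2 := X.2.1.card
      set n3 := X.2.2.card
      set s := (S X).card with hsdef
      have hp' : t ^ (3 * (h - 1)) ≤ 2 * s ^ (3 * (h - 1)) := hp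
      have hth : t ≤ (t / h + 1) * h := by
        have := Nat.div_add_mod t h
        have h2 := Nat.mod_lt t (show h > 0 by omega)
        nlinarith
      have hkey : 2 * t ^ 3 ≤ 2592 * (t / h + 1) * (h ^ 3 * (n1 * n2 * n3)) := by
        have e1 : t ^ 2 ≤ (36 * q * h) ^ 2 := Nat.pow_le_pow_left htq 2
        have e2 : t ^ 2 ≤ 1296 * (h ^ 2 * (n1 * n2 * n3)) := by
          calc t ^ 2 ≤ (36 * q * h) ^ 2 := e1
            _ = 1296 * (h ^ 2 * q ^ 2) := by ring
            _ ≤ 1296 * (h ^ 2 * (n1 * n2 * n3)) :=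
              Nat.mul_le_mul_left _ (Nat.mul_le_mul_left _ hprod)
        calc 2 * t ^ 3 = 2 * t * t ^ 2 := by ring
          _ ≤ 2 * t * (1296 * (h ^ 2 * (n1 * n2 * n3))) := Nat.mul_le_mul_left _ e2
          _ = t * (2592 * (h ^ 2 * (n1 * n2 * n3))) := by ring
          _ ≤ ((t / h + 1) * h) * (2592 * (h ^ 2 * (n1 * n2 * n3))) :=
              Nat.mul_le_mul_right _ hth
          _ = _ := by ring
      calc t ^ 3 * t ^ (3 * (h - 1)) ≤ t ^ 3 * (2 * s ^ (3 * (h - 1))) :=
            Nat.mul_le_mul_left _ hp'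
        _ = (2 * t ^ 3) * s ^ (3 * (h - 1)) := by ring
        _ ≤ (2592 * (t / h + 1) * (h ^ 3 * (n1 * n2 * n3))) * s ^ (3 * (h - 1)) :=
            Nat.mul_le_mul_right _ hkey
        _ = 2592 * (t / h + 1) * ((h * n1 * s ^ (h - 1)) * ((h * n2 * s ^ (h - 1)) *
              (h * n3 * s ^ (h - 1)))) := by
            have : 3 * (h - 1) = (h - 1) + ((h - 1) + (h - 1)) := by ring
            rw [this, pow_add, pow_add]; ring
        _ ≤ _ := by
            refine Nat.mul_le_mul_left _ (Nat.mul_le_mul ?_ (Nat.mul_le_mul ?_ ?_))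
            · convert b1
            · convert b2
            · convert b3)
    (card_triples t Q h)
  let word : ((Fin h → Fin t) × (Fin h → Fin t) × (Fin h → Fin t)) → List (Fin t) := fun f =>
    piece (List.ofFn f.1 ++ List.ofFn f.2.1 ++ List.ofFn f.2.2)
  refine ⟨F.flatMap word, ?_, ?_⟩
  · rw [List.length_flatMap]
    have h1 : ∀ n ∈ F.map (fun f => (word f).length), n ≤ 90 * h ^ 2 := by
      intro n hn
      rw [List.mem_map] at hn
      obtain ⟨f, _, rfl⟩ := hn
      have := length_piece (List.ofFn f.1 ++ List.ofFn f.2.1 ++ List.ofFn f.2.2) (by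
        simp only [List.length_append, List.length_ofFn]; omega)
      refine this.trans ?_
      simp only [List.length_append, List.length_ofFn]
      have : 10 * (h + h + h) ^ 2 = 90 * h ^ 2 := by ring
      omega
    have h2 := List.sum_le_card_nsmul _ _ h1
    simp only [List.length_map, smul_eq_mul] at h2
    refine h2.trans ?_
    rw [mul_comm]
    exact Nat.mul_le_mul_left _ hF1
  · intro q X1 X2 X3 hq1 hqQ htq hcls
    obtain ⟨f, hf, hR1, hR2, hR3⟩ := hF2 (X1, X2, X3) (by
      unfold triples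
      simp only [mem_filter, mem_univ, true_and]
      exact ⟨q, hq1, hqQ, htq, hcls⟩)
    obtain ⟨l1, c, r1, e1, hc, hlr1⟩ := block_decomp f.1 _ _ hR1
    obtain ⟨l2, a, r2, e2, ha, hlr2⟩ := block_decomp f.2.1 _ _ hR2
    obtain ⟨l3, b, r3, e3, hb, hlr3⟩ := block_decomp f.2.2 _ _ hR3
    refine ⟨l1, c, r1 ++ (l2 ++ [a] ++ r2) ++ (l3 ++ [b] ++ r3), r1 ++ l2, a,
      r2 ++ (l3 ++ [b] ++ r3) ++ l1, ?_, hc, ha, ?_, ?_, ⟨b, by simp, hb⟩⟩
    · have : word f <:+: F.flatMap word := by
        rw [List.flatMap_def]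
        exact List.infix_of_mem_flatten (List.mem_map.2 ⟨f, hf, rfl⟩)
      refine List.IsInfix.trans ?_ this
      simp only [word]
      rw [e1, e2, e3]
      simp
    · simp
    · obtain ⟨hd1, hd2, hd3, _⟩ := hcls
      intro y hy
      have hcase : y ∈ S (X1, X2, X3) ∨ y = b := by
        simp only [List.mem_append, List.mem_singleton] at hy
        rcases hy with (hy | hy) | ((hy | ((hy | hy) | hy)) | hy)
        · exact Or.inl (hlr1 y (by simp [hy]))
        · exact Or.inl (hlr2 y (by simp [hy]))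
        · exact Or.inl (hlr2 y (by simp [hy]))
        · exact Or.inl (hlr3 y (by simp [hy]))
        · exact Or.inr hy
        · exact Or.inl (hlr3 y (by simp [hy]))
        · exact Or.inl (hlr1 y (by simp [hy]))
      rcases hcase with hy | rfl
      · simp only [S, mem_compl, mem_union, not_or] at hy
        exact ⟨hy.1.1, hy.1.2⟩
      · exact ⟨Finset.disjoint_right.1 hd2 hb, Finset.disjoint_right.1 hd3 hb⟩

end Pool.Agent.Collapse
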