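import Pool.Agent.Collapse.Algebra

namespace Pool.Agent.Collapse

open Classical

variable {A X : Type*}

/-- `w` has a block (a factor between two letters of `N` containing no letter of `N`)
with exactly one letter of `U`, preceded in the block by an odd number of letters of `J`. -/
def KillSingle (w : List A) (N J U : Set A) : Prop :=
  ∃ c ∈ N, ∃ c' ∈ N, ∃ x ∈ U, ∃ v1 v2 : List A,
    (∀ a ∈ v1 ++ v2, a ∉ N ∧ a ∉ U) ∧ Odd (v1.countP (fun a => decide (a ∈ J))) ∧
    [c] ++ (v1 ++ [x] ++ v2) ++ [c'] <:+: w

/-- `w` has the blocks `z a y` with exactly one letter `a` of `J`, with one letter deleted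
after `a`, and the same for the reversed block. -/
def KillSwap (w : List A) (N J U : Set A) : Prop :=
  ∃ c ∈ N, ∃ a ∈ J, ∃ z y : List A,
    (∀ b ∈ z ++ y, b ∉ N ∧ b ∉ J) ∧ (∃ b ∈ z ++ y, b ∈ U) ∧
    ([c] ++ (z ++ [a] ++ y) ++ [c] <:+: w) ∧
    (∀ y1 b y2, y = y1 ++ b :: y2 → [c] ++ (z ++ [a] ++ (y1 ++ y2)) ++ [c] <:+: w) ∧
    ([c] ++ (y.reverse ++ [a] ++ z.reverse) ++ [c] <:+: w) ∧
    (∀ z1 b z2, z.reverse = z1 ++ b :: z2 →
      [c] ++ (y.reverse ++ [a] ++ (z1 ++ z2)) ++ [c] <:+: w)

/-- The letters of a list all preserve the pair `{e,f}`: parity of the swaps. -/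
lemma act_parity {φ : A → X → X} {e f : X} {J : Set A} (v : List A)
    (hJ : ∀ a ∈ v, a ∈ J → φ a e = f ∧ φ a f = e)
    (hR : ∀ a ∈ v, a ∉ J → φ a e = e ∧ φ a f = f) :
    (Odd (v.countP (fun a => decide (a ∈ J))) → act φ v e = f ∧ act φ v f = e) ∧
    (Even (v.countP (fun a => decide (a ∈ J))) → act φ v e = e ∧ act φ v f = f) := by
  induction v with
  | nil => simp
  | cons a v ih =>
    have ih' := ih (fun b hb => hJ b (by simp [hb])) (fun b hb => hR b (by simp [hb]))
    by_cases ha : a ∈ J
    · obtain ⟨h1, h2⟩ := hJ a (by simp) ha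
      have hc : (a :: v).countP (fun a => decide (a ∈ J)) =
          v.countP (fun a => decide (a ∈ J)) + 1 := by
        rw [List.countP_cons]; simp [ha]
      rw [hc]
      simp only [act_cons, h1, h2]
      constructor
      · intro hodd
        have := ih'.2 (by rcases Nat.even_or_odd (v.countP (fun a => decide (a ∈ J))) with h | h
                          · exact h
                          · exact absurd hodd (by simpa using h.add_one))
        exact ⟨this.2, this.1⟩
      · intro heven
        have := ih'.1 (by rcases Nat.even_or_odd (v.countP (fun a => decide (a ∈ J))) with h | h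
                          · exact absurd heven (by simpa using h.add_one)
                          · exact h)
        exact ⟨this.2, this.1⟩
    · obtain ⟨h1, h2⟩ := hR a (by simp) ha
      have hc : (a :: v).countP (fun a => decide (a ∈ J)) =
          v.countP (fun a => decide (a ∈ J)) := by
        rw [List.countP_cons]; simp [ha]
      rw [hc]
      simp only [act_cons, h1, h2]
      exact ih'

/-- Words of letters fixing `e` and with all one-letter deletions mapping `f` to `f`:
every letter fixes `f`. -/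
lemma all_fix {φ : A → X → X} {f : X} (y : List A)
    (hinj : ∀ b ∈ y, Function.Injective (φ b)) (h0 : act φ y f = f)
    (h1 : ∀ y1 b y2, y = y1 ++ b :: y2 → act φ (y1 ++ y2) f = f) :
    ∀ b ∈ y, φ b f = f := by
  induction y using List.reverseRecOn with
  | nil => simp
  | append_singleton u b ih =>
    have hu : act φ u f = f := by
      have := h1 u b [] (by simp)
      simpa using this
    have hb : φ b f = f := by
      have := h0
      rw [act_append, hu] at this
      simpa using this
    intro b' hb'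
    rw [List.mem_append] at hb'
    rcases hb' with hb' | hb'
    · refine ih (fun c hc => hinj c (by simp [hc])) hu ?_ b' hb'
      intro y1 c y2 hy
      have := h1 y1 c (y2 ++ [b]) (by rw [hy]; simp)
      rw [← List.append_assoc, act_append] at this
      simp only [act_cons, act_nil] at this
      exact hinj b (by simp) (by rw [this, hb])
    · simp only [List.mem_singleton] at hb'
      rw [hb']; exact hb

variable [Finite X]

/-- A word containing the basic factors and killing every triple is 2-collapsing. -/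
theorem isCollapsing_two_of_kill {A : Type*} [Nonempty A] (w : List A)
    (hB : ∀ a b : A, [a, b, b, a, b, a] <:+: w)
    (hK : ∀ N J U : Set A, N.Nonempty → J.Nonempty → U.Nonempty → Disjoint N J → Disjoint N U →
      Disjoint J U → KillSingle w N J U ∨ KillSwap w N J U) :
    IsCollapsing 2 w := by
  refine ⟨?_, ?_⟩
  · obtain ⟨a⟩ := ‹Nonempty A›
    intro h
    have := hB a a
    rw [h] at this
    simp at this
  intro X _ φ ⟨v0, _, hv0⟩
  by_contra hdf
  have hw : df (act φ w) < 2 := by omega
  -- factors have deficiency at most one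
  have hfac : ∀ u, u <:+: w → df (act φ u) < 2 := fun u hu =>
    lt_of_le_of_lt (df_infix φ hu) hw
  have hletter : ∀ a, df (φ a) < 2 := by
    intro a
    have := hfac [a] (List.IsInfix.trans ⟨[], [a, a, a, a, a], by simp⟩ (hB a a))
    have h2 : act φ [a] = φ a := by funext x; simp
    rwa [h2] at this
  have hXne : Nonempty X := by
    obtain ⟨x, _⟩ := (two_le_df_iff (act φ v0)).1 hv0
    exact ⟨x⟩
  -- notation
  let N : Set A := {c | ¬ Function.Injective (φ c)}
  have hNmem : ∀ c, c ∈ N ↔ ¬ Function.Injective (φ c) := fun c => Iff.rfl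
  -- missing points and pairs
  have hmiss : ∀ c, c ∈ N → ∃ e, e ∉ Set.range (φ c) ∧ ∀ z, z ≠ e → z ∈ Set.range (φ c) :=
    fun c hc => missing_of_df_one _ hc (hletter c)
  have hpair : ∀ c, c ∈ N → ∃ p q, p ≠ q ∧ φ c p = φ c q ∧
      ∀ x y, x ≠ y → φ c x = φ c y → x = p ∨ x = q :=
    fun c hc => pair_of_df_one _ hc (hletter c)
  choose! E hE1 hE2 using hmiss
  -- blocks
  have hblock : ∀ c ∈ N, ∀ c' ∈ N, ∀ v : List A, (∀ a ∈ v, a ∉ N) → [c] ++ v ++ [c'] <:+: w →
      ∃ y, y ≠ act φ v (E c) ∧ φ c' y = φ c' (act φ v (E c)) := by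
    intro c hc c' hc' v hv hinf
    exact block_mem (fun a ha => by have := hv a ha; rw [hNmem] at this; push Not at this; exact this)
      (hE1 c hc) (hE1 c' hc') (hfac _ hinf)
  -- if two different points lie in the kernel pair of `c` they make it up
  have htwo : ∀ c ∈ N, ∀ x y, x ≠ y → (∃ x', x' ≠ x ∧ φ c x' = φ c x) →
      (∃ y', y' ≠ y ∧ φ c y' = φ c y) → φ c x = φ c y ∧
      ∀ z, (∃ z', z' ≠ z ∧ φ c z' = φ c z) → z = x ∨ z = y := by
    intro c hc x y hxy ⟨x', hx', hfx⟩ ⟨y', hy', hfy⟩
    obtain ⟨p, q, hpq, hfpq, hall⟩ := hpair c hc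
    have e1 := hall x x' (Ne.symm hx') hfx.symm
    have e2 := hall y y' (Ne.symm hy') hfy.symm
    have hxyf : φ c x = φ c y := by
      rcases e1 with rfl | rfl <;> rcases e2 with rfl | rfl <;> first | exact absurd rfl hxy | exact hfpq | exact hfpq.symm
    refine ⟨hxyf, ?_⟩
    intro z ⟨z', hz', hfz⟩
    have e3 := hall z z' (Ne.symm hz') hfz.symm
    rcases e1 with h1 | h1 <;> rcases e2 with h2 | h2 <;> rcases e3 with h3 | h3
    · exact Or.inl (h3.trans h1.symm)
    · exact absurd (h1.trans h2.symm) hxy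
    · exact Or.inl (h3.trans h1.symm)
    · exact Or.inr (h3.trans h2.symm)
    · exact Or.inr (h3.trans h2.symm)
    · exact Or.inl (h3.trans h1.symm)
    · exact absurd (h1.trans h2.symm) hxy
    · exact Or.inl (h3.trans h1.symm)
  -- sub-factors of the basic words
  have hBcc : ∀ a b : A, [a] ++ [] ++ [b] <:+: w := fun a b =>
    List.IsInfix.trans ⟨[], [b, a, b, a], by simp⟩ (hB a b)
  have hBcac : ∀ a b : A, [a] ++ [b] ++ [a] <:+: w := fun a b =>
    List.IsInfix.trans ⟨[a, b, b], [], by simp⟩ (hB a b)
  have hBcaac : ∀ a b : A, [a] ++ [b, b] ++ [a] <:+: w := fun a b =>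
    List.IsInfix.trans ⟨[], [b, a], by simp⟩ (hB a b)
  -- every letter injective is impossible
  have hNne : N.Nonempty := by
    by_contra hne
    rw [Set.not_nonempty_iff_eq_empty] at hne
    have hinj : ∀ a, Function.Injective (φ a) := by
      intro a
      by_contra h
      have : a ∈ N := h
      rw [hne] at this
      exact this
    obtain ⟨x, y, _, hx, _⟩ := (two_le_df_iff (act φ v0)).1 hv0
    exact hx (Finite.surjective_of_injective (act_injective φ v0 (fun a _ => hinj a)) x)
  obtain ⟨c0, hc0⟩ := hNne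
  have hcontra : ∀ D : Set X, (∀ c ∈ N, E c ∈ D) →
      (∀ c ∈ N, ∀ g ∈ D, ∃ y, y ≠ g ∧ φ c y = φ c g) →
      (∀ a, a ∉ N → ∀ g ∈ D, φ a g ∈ D) → False := by
    intro D hD1 hD2 hD3
    have := df_lt_two_of_invariant φ D (fun c hc => ⟨E c, hD1 c hc, hE2 c hc⟩)
      (fun c hc => hD2 c hc) (fun a ha => hD3 a (by rw [hNmem]; push Not; exact ha)) v0
    omega
  -- Case 1: two different missing points
  by_cases hcase : ∃ c1 ∈ N, E c1 ≠ E c0
  · obtain ⟨c1, hc1, hne⟩ := hcase
    have hmem : ∀ c ∈ N, ∀ c' ∈ N, ∃ y, y ≠ E c ∧ φ c' y = φ c' (E c) := by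
      intro c hc c' hc'
      have := hblock c hc c' hc' [] (by simp) (hBcc c c')
      simpa using this
    apply hcontra {E c0, E c1}
    · intro c hc
      have := (htwo c0 hc0 (E c0) (E c1) (Ne.symm hne) (hmem c0 hc0 c0 hc0) (hmem c1 hc1 c0 hc0)).2
        (E c) (hmem c hc c0 hc0)
      simpa using this
    · intro c hc g hg
      rcases hg with rfl | hg
      · exact hmem c0 hc0 c hc
      · rw [Set.mem_singleton_iff] at hg
        rw [hg]; exact hmem c1 hc1 c hc
    · intro a ha g hg
      have key : ∀ c ∈ N, (φ a (E c)) ∈ ({E c0, E c1} : Set X) := by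
        intro c hc
        have h1 := hblock c hc c hc [a] (by simpa using ha) (hBcac c a)
        simp only [act_cons, act_nil] at h1
        have h2 := (htwo c hc (E c0) (E c1) (Ne.symm hne) (hmem c0 hc0 c hc) (hmem c1 hc1 c hc)).2
          _ h1
        simpa using h2
      rcases hg with rfl | hg
      · exact key c0 hc0
      · rw [Set.mem_singleton_iff] at hg
        rw [hg]; exact key c1 hc1
  push Not at hcase
  -- all missing points are equal
  set e := E c0 with he
  have hEe : ∀ c ∈ N, E c = e := fun c hc => hcase c hc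
  have hmeme : ∀ c' ∈ N, ∃ y, y ≠ e ∧ φ c' y = φ c' e := by
    intro c' hc'
    have := hblock c0 hc0 c' hc' [] (by simp) (hBcc c0 c')
    simpa using this
  -- Case 2: every injective letter fixes `e`
  by_cases hfix : ∀ a, a ∉ N → φ a e = e
  · apply hcontra {e}
    · intro c hc; simp [hEe c hc]
    · intro c hc g hg
      rw [Set.mem_singleton_iff] at hg
      rw [hg]; exact hmeme c hc
    · intro a ha g hg
      rw [Set.mem_singleton_iff] at hg
      rw [hg, hfix a ha]; simp
  push Not at hfix
  obtain ⟨a0, ha0, ha0e⟩ := hfix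
  set f := φ a0 e with hf
  have hef : e ≠ f := Ne.symm ha0e
  have hone : ∀ a, a ∉ N → ∀ c ∈ N, ∃ y, y ≠ φ a e ∧ φ c y = φ c (φ a e) := by
    intro a ha c hc
    have := hblock c hc c hc [a] (by simpa using ha) (hBcac c a)
    rw [hEe c hc] at this
    simpa using this
  have hmemf : ∀ c ∈ N, ∃ y, y ≠ f ∧ φ c y = φ c f := fun c hc => hone a0 ha0 c hc
  have hpairD : ∀ c ∈ N, ∀ z, (∃ z', z' ≠ z ∧ φ c z' = φ c z) → z = e ∨ z = f := by
    intro c hc z hz
    exact (htwo c hc e f hef (hmeme c hc) (hmemf c hc)).2 z hz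
  -- the fundamental property
  have hstar : ∀ c ∈ N, ∀ c' ∈ N, ∀ v : List A, (∀ a ∈ v, a ∉ N) → [c] ++ v ++ [c'] <:+: w →
      act φ v e = e ∨ act φ v e = f := by
    intro c hc c' hc' v hv hinf
    have := hblock c hc c' hc' v hv hinf
    rw [hEe c hc] at this
    exact hpairD c' hc' _ this
  have hef1 : ∀ a, a ∉ N → φ a e = e ∨ φ a e = f := by
    intro a ha
    have := hstar c0 hc0 c0 hc0 [a] (by simpa using ha) (hBcac c0 a)
    simpa using this
  let J : Set A := {a | a ∉ N ∧ φ a e = f}
  have hinj : ∀ a, a ∉ N → Function.Injective (φ a) := by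
    intro a ha
    rw [hNmem] at ha; push Not at ha; exact ha
  have hJ : ∀ a ∈ J, φ a e = f ∧ φ a f = e := by
    intro a ⟨haN, hae⟩
    refine ⟨hae, ?_⟩
    have h1 := hstar c0 hc0 c0 hc0 [a, a] (by simpa using haN) (hBcaac c0 a)
    simp only [act_cons, act_nil, hae] at h1
    rcases h1 with h1 | h1
    · exact h1
    · exact absurd (hinj a haN (hae.trans h1.symm)) hef
  have hRe : ∀ a, a ∉ N → a ∉ J → φ a e = e := by
    intro a haN haJ
    rcases hef1 a haN with h | h
    · exact h
    · exact absurd ⟨haN, h⟩ haJ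
  let U : Set A := {a | a ∉ N ∧ a ∉ J ∧ φ a f ≠ f}
  -- `U` is nonempty
  have hUne : U.Nonempty := by
    by_contra hne
    rw [Set.not_nonempty_iff_eq_empty] at hne
    have hRf : ∀ a, a ∉ N → a ∉ J → φ a f = f := by
      intro a haN haJ
      by_contra h
      have : a ∈ U := ⟨haN, haJ, h⟩
      rw [hne] at this
      exact this
    apply hcontra {e, f}
    · intro c hc; simp [hEe c hc]
    · intro c hc g hg
      rcases hg with rfl | hg
      · exact hmeme c hc
      · rw [Set.mem_singleton_iff] at hg
        rw [hg]; exact hmemf c hc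
    · intro a haN g hg
      by_cases haJ : a ∈ J
      · rcases hg with rfl | hg
        · simp [(hJ a haJ).1]
        · rw [Set.mem_singleton_iff] at hg
          rw [hg]; simp [(hJ a haJ).2]
      · rcases hg with rfl | hg
        · simp [hRe a haN haJ]
        · rw [Set.mem_singleton_iff] at hg
          rw [hg]; simp [hRf a haN haJ]
  have hJne : J.Nonempty := ⟨a0, ha0, rfl⟩
  have hd1 : Disjoint N J := by
    rw [Set.disjoint_left]; intro a ha hb; exact hb.1 ha
  have hd2 : Disjoint N U := by
    rw [Set.disjoint_left]; intro a ha hb; exact hb.1 ha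
  have hd3 : Disjoint J U := by
    rw [Set.disjoint_left]; intro a ha hb; exact hb.2.1 ha
  rcases hK N J U ⟨c0, hc0⟩ hJne hUne hd1 hd2 hd3 with hk | hk
  · -- single kill
    obtain ⟨c, hc, c', hc', x, hx, v1, v2, hv, hodd, hinf⟩ := hk
    have hP : ∀ a ∈ v1 ++ [x] ++ v2, a ∉ N := by
      intro a ha
      simp only [List.mem_append, List.mem_singleton] at ha
      rcases ha with (ha | ha) | ha
      · exact (hv a (by simp [ha])).1
      · rw [ha]; exact hx.1
      · exact (hv a (by simp [ha])).1
    have hres := hstar c hc c' hc' _ hP hinf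
    have hRf : ∀ a ∈ v1 ++ v2, a ∉ J → φ a e = e ∧ φ a f = f := by
      intro a ha haJ
      refine ⟨hRe a (hv a ha).1 haJ, ?_⟩
      by_contra h
      exact (hv a ha).2 ⟨(hv a ha).1, haJ, h⟩
    have h1 := (act_parity (e := e) (f := f) (J := J) v1 (fun a _ haJ => hJ a haJ)
      (fun a ha haJ => hRf a (by simp [ha]) haJ)).1 hodd
    have h2 := act_parity (e := e) (f := f) (J := J) v2 (fun a _ haJ => hJ a haJ)
      (fun a ha haJ => hRf a (by simp [ha]) haJ)
    have hxf : φ x f ≠ f := hx.2.2
    have hxe : φ x f ≠ e := by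
      intro h
      exact hef (hinj x hx.1 ((hRe x hx.1 hx.2.1).trans h.symm))
    have hinj2 : Function.Injective (act φ v2) :=
      act_injective φ v2 (fun a ha => hinj a (hv a (by simp [ha])).1)
    rw [act_append, act_append, h1.1] at hres
    simp only [act_cons, act_nil] at hres
    rcases Nat.even_or_odd
      (v2.countP (fun a => @decide (a ∈ J) (propDecidable (a ∈ J)))) with hpar | hpar
    · obtain ⟨g1, g2⟩ := h2.2 hpar
      rcases hres with h | h
      · exact hxe (hinj2 (h.trans g1.symm))
      · exact hxf (hinj2 (h.trans g2.symm))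
    · obtain ⟨g1, g2⟩ := h2.1 hpar
      rcases hres with h | h
      · exact hxf (hinj2 (h.trans g2.symm))
      · exact hxe (hinj2 (h.trans g1.symm))
  · -- swap kill
    obtain ⟨c, hc, a, haJ, z, y, hzy, ⟨b, hb, hbU⟩, hw1, hw2, hw3, hw4⟩ := hk
    have hKfix : ∀ v : List A, (∀ b ∈ v, b ∉ N ∧ b ∉ J) → act φ v e = e := by
      intro v hv
      induction v with
      | nil => rfl
      | cons b v ih =>
        rw [act_cons, hRe b (hv b (by simp)).1 (hv b (by simp)).2]
        exact ih (fun b hb => hv b (by simp [hb]))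
    have hgen : ∀ z y : List A, (∀ b ∈ z, b ∉ N ∧ b ∉ J) → (∀ b ∈ y, b ∉ N ∧ b ∉ J) →
        [c] ++ (z ++ [a] ++ y) ++ [c] <:+: w → act φ y f = f := by
      intro z y hz hy hinf
      have hres := hstar c hc c hc (z ++ [a] ++ y) (by
        intro b hb
        simp only [List.mem_append, List.mem_singleton] at hb
        rcases hb with (hb | hb) | hb
        · exact (hz b hb).1
        · rw [hb]; exact haJ.1
        · exact (hy b hb).1) hinf
      rw [act_append, act_append, hKfix z hz] at hres
      simp only [act_cons, act_nil, (hJ a haJ).1] at hres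
      rcases hres with h | h
      · exfalso
        have hinj2 : Function.Injective (act φ y) :=
          act_injective φ y (fun a ha => hinj a (hy a ha).1)
        exact hef (hinj2 ((hKfix y hy).trans h.symm))
      · exact h
    have hfixall : ∀ z y : List A, (∀ b ∈ z, b ∉ N ∧ b ∉ J) → (∀ b ∈ y, b ∉ N ∧ b ∉ J) →
        [c] ++ (z ++ [a] ++ y) ++ [c] <:+: w →
        (∀ y1 b y2, y = y1 ++ b :: y2 → [c] ++ (z ++ [a] ++ (y1 ++ y2)) ++ [c] <:+: w) →
        ∀ b ∈ y, φ b f = f := by
      intro z y hz hy hinf hdel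
      apply all_fix y (fun b hb => hinj b (hy b hb).1) (hgen z y hz hy hinf)
      intro y1 b y2 hyy
      refine hgen z (y1 ++ y2) hz ?_ (hdel y1 b y2 hyy)
      intro b' hb'
      apply hy
      rw [hyy]
      simp only [List.mem_append, List.mem_cons] at hb' ⊢
      tauto
    have hy' : ∀ b ∈ y, b ∉ N ∧ b ∉ J := fun b hb => hzy b (by simp [hb])
    have hz' : ∀ b ∈ z, b ∉ N ∧ b ∉ J := fun b hb => hzy b (by simp [hb])
    have hyfix := hfixall z y hz' hy' hw1 hw2
    have hzfix := hfixall y.reverse z.reverse (by simpa using hy') (by simpa using hz') hw3 hw4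
    rw [List.mem_append] at hb
    rcases hb with hb | hb
    · exact hbU.2.2 (hzfix b (by simpa using hb))
    · exact hbU.2.2 (hyfix b hb)

end Pool.Agent.Collapse
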