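import Pool.Agent.Collapse.Words

namespace Pool.Agent.Collapse

open Classical

/-! ### The lower bound `2 t²` -/

/-- blocks of `w` ending with the letter `c`; `cur` is the (reversed) current block. -/
noncomputable def inner {A : Type*} (c : A) : List A → List A → List (List A)
  | _, [] => []
  | cur, a :: w => if a = c then cur.reverse :: inner c [] w else inner c (a :: cur) w

lemma inner_length {A : Type*} (c : A) (w : List A) : ∀ cur, (inner c cur w).length =
    w.countP (fun a => decide (a = c)) := by
  induction w with
  | nil => intro cur; simp [inner]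
  | cons a w ih =>
    intro cur
    by_cases h : a = c
    · simp [inner, h, ih]
    · simp [inner, h, ih]

lemma nil_mem_inner {A : Type*} (c : A) (w : List A) : ∀ cur,
    ([c, c] <:+: w ∨ (cur = [] ∧ [c] <+: w)) → [] ∈ inner c cur w := by
  induction w with
  | nil => intro cur h; simp at h
  | cons a w ih =>
    intro cur h
    by_cases ha : a = c
    · subst ha
      simp only [inner, if_true, List.mem_cons]
      rcases h with h | ⟨rfl, h⟩
      · right
        apply ih
        rw [List.infix_cons_iff] at h
        rcases h with h | h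
        · right
          refine ⟨rfl, ?_⟩
          obtain ⟨s, hs⟩ := h
          simp only [List.cons_append, List.nil_append, List.cons.injEq, true_and] at hs
          exact ⟨s, by rw [← hs]; simp⟩
        · left; exact h
      · left; simp
    · simp only [inner, ha, if_false]
      apply ih
      left
      rcases h with h | ⟨_, h⟩
      · rw [List.infix_cons_iff] at h
        rcases h with h | h
        · obtain ⟨s, hs⟩ := h
          simp only [List.cons_append, List.cons.injEq] at hs
          exact absurd hs.1.symm ha
        · exact h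
      · obtain ⟨s, hs⟩ := h
        simp only [List.cons_append, List.cons.injEq] at hs
        exact absurd hs.1.symm ha

lemma inner_not_mem {A : Type*} (c : A) (w : List A) : ∀ cur, (c ∉ cur) →
    ∀ v ∈ inner c cur w, c ∉ v := by
  induction w with
  | nil => intro cur _ v hv; simp [inner] at hv
  | cons a w ih =>
    intro cur hcur v hv
    by_cases h : a = c
    · simp only [inner, h, if_true, List.mem_cons] at hv
      rcases hv with rfl | hv
      · simpa using hcur
      · exact ih [] (by simp) v hv
    · simp only [inner, h, if_false] at hv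
      refine ih (a :: cur) ?_ v hv
      simp only [List.mem_cons, not_or]
      exact ⟨fun h' => h h'.symm, hcur⟩

/-- If all blocks map `e` into `D` then the image misses at most one point. -/
lemma range_of_blocks {A X : Type*} [Finite X] {φ : A → X → X} {c : A} {e : X} {D : Set X}
    (hinj : ∀ a, a ≠ c → Function.Injective (φ a))
    (hc1 : ∀ z, z ≠ e → z ∈ Set.range (φ c))
    (hc2 : ∀ g ∈ D, ∃ y, y ≠ g ∧ φ c y = φ c g) (w : List A) :
    ∀ (cur u : List A), (∀ x, x ≠ act φ cur.reverse e → x ∈ Set.range (act φ u)) →
      (∀ v ∈ inner c cur w, act φ v e ∈ D) →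
      ∃ g, ∀ x, x ≠ g → x ∈ Set.range (act φ (u ++ w)) := by
  induction w with
  | nil =>
    intro cur u h _
    exact ⟨act φ cur.reverse e, by simpa using h⟩
  | cons a w ih =>
    intro cur u h hD
    have happ : u ++ a :: w = (u ++ [a]) ++ w := by simp
    rw [happ]
    by_cases ha : a = c
    · subst ha
      simp only [inner, if_true, List.mem_cons] at hD
      have hg := hD cur.reverse (Or.inl rfl)
      refine ih [] (u ++ [a]) ?_ (fun v hv => hD v (Or.inr hv))
      intro x hx
      simp only [List.reverse_nil, act_nil] at hx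
      obtain ⟨z, rfl⟩ := hc1 x hx
      by_cases hz : z = act φ cur.reverse e
      · obtain ⟨y, hy1, hy2⟩ := hc2 _ hg
        obtain ⟨y', hy'⟩ := h y hy1
        exact ⟨y', by rw [act_append, hy', hz]; simpa using hy2⟩
      · obtain ⟨y', hy'⟩ := h z hz
        exact ⟨y', by rw [act_append, hy']; simp⟩
    · simp only [inner, ha, if_false] at hD
      refine ih (a :: cur) (u ++ [a]) ?_ hD
      intro x hx
      obtain ⟨z, rfl⟩ := Finite.surjective_of_injective (hinj a ha) x
      have hz : z ≠ act φ cur.reverse e := by
        intro h'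
        apply hx
        rw [h', List.reverse_cons, act_append]
        simp
      obtain ⟨y', hy'⟩ := h z hz
      exact ⟨y', by rw [act_append, hy']; simp⟩

lemma df_lt_two_of_missing {X : Type*} [Finite X] {f : X → X}
    (h : ∃ g, ∀ x, x ≠ g → x ∈ Set.range f) : df f < 2 := by
  by_contra hcon
  obtain ⟨x, y, hxy, hx, hy⟩ := (two_le_df_iff f).1 (by omega)
  obtain ⟨g, hg⟩ := h
  by_cases hxg : x = g
  · exact hy (hg y (fun h => hxy (by rw [hxg, h])))
  · exact hx (hg x hxg)

/-! #### 2-fullness: `c c` must be a factor -/

/-- the letter `c` misses `0` and identifies `1,2`; the other letters miss `1` and identify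
`0,1`. -/
noncomputable def phiCC {A : Type*} (c : A) (a : A) : Fin 3 → Fin 3 :=
  if a = c then ![2, 1, 1] else ![0, 0, 2]

lemma cc_infix {A : Type*} {w : List A} (hw : IsCollapsing 2 w) (c : A) : [c, c] <:+: w := by
  by_contra hcon
  have key : ∀ u : List A, ¬ ([c, c] <:+: u) →
      (∀ u' , u = u' ++ [c] → 1 ∈ Set.range (act (phiCC c) u) ∧ 2 ∈ Set.range (act (phiCC c) u)) ∧
      ((∀ u', u ≠ u' ++ [c]) →
        0 ∈ Set.range (act (phiCC c) u) ∧ 2 ∈ Set.range (act (phiCC c) u)) := by
    intro u
    induction u using List.reverseRecOn with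
    | nil =>
      intro _
      refine ⟨fun u' h => by simp at h, fun _ => ⟨⟨0, rfl⟩, ⟨2, rfl⟩⟩⟩
    | append_singleton u a ih =>
      intro hcc
      have hcc' : ¬ ([c, c] <:+: u) := fun h => hcc (h.trans (List.prefix_append _ _).isInfix)
      obtain ⟨ih1, ih2⟩ := ih hcc'
      constructor
      · intro u' h
        have ha : a = c := by
          have := List.append_inj_right' h (by simp)
          simpa using this
        subst ha
        have hlast : ∀ u'', u ≠ u'' ++ [a] := by
          intro u'' hu
          apply hcc
          rw [hu]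
          exact ⟨u'', [], by simp⟩
        obtain ⟨⟨x0, h0⟩, ⟨x2, h2⟩⟩ := ih2 hlast
        refine ⟨⟨x2, ?_⟩, ⟨x0, ?_⟩⟩
        · rw [act_append, h2]; simp [phiCC]
        · rw [act_append, h0]; simp [phiCC]
      · intro hne
        have ha : a ≠ c := by
          rintro rfl
          exact hne u rfl
        by_cases hlast : ∃ u'', u = u'' ++ [c]
        · obtain ⟨u'', hu⟩ := hlast
          obtain ⟨⟨x1, h1⟩, ⟨x2, h2⟩⟩ := ih1 u'' hu
          refine ⟨⟨x1, ?_⟩, ⟨x2, ?_⟩⟩
          · rw [act_append, h1]; simp [phiCC, ha]
          · rw [act_append, h2]; simp [phiCC, ha]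
        · push Not at hlast
          obtain ⟨⟨x0, h0⟩, ⟨x2, h2⟩⟩ := ih2 hlast
          refine ⟨⟨x0, ?_⟩, ⟨x2, ?_⟩⟩
          · rw [act_append, h0]; simp [phiCC, ha]
          · rw [act_append, h2]; simp [phiCC, ha]
  have hdf : df (act (phiCC c) w) < 2 := by
    apply df_lt_two_of_missing
    obtain ⟨k1, k2⟩ := key w hcon
    by_cases hlast : ∃ u'', w = u'' ++ [c]
    · obtain ⟨u'', hu⟩ := hlast
      obtain ⟨h1, h2⟩ := k1 u'' hu
      refine ⟨0, fun x hx => ?_⟩
      fin_cases x
      · exact absurd rfl hx
      · exact h1
      · exact h2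
    · push Not at hlast
      obtain ⟨h1, h2⟩ := k2 hlast
      refine ⟨1, fun x hx => ?_⟩
      fin_cases x
      · exact h1
      · exact absurd rfl hx
      · exact h2
  have := hw.2 (Fin 3) (phiCC c) ⟨[c, c], by simp, by
    rw [two_le_df_iff]
    refine ⟨0, 2, by decide, ?_, ?_⟩
    · rintro ⟨x, hx⟩
      revert hx
      simp only [act_cons, act_nil, phiCC, if_true]
      fin_cases x <;> decide
    · rintro ⟨x, hx⟩
      revert hx
      simp only [act_cons, act_nil, phiCC, if_true]
      fin_cases x <;> decide⟩
  omega

/-! #### The four-point action -/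

section four

variable {t : ℕ} (c : Fin t)

abbrev Par : Type := ({a : Fin t // a ≠ c} → ZMod 2) × ({a : Fin t // a ≠ c} → ZMod 2)

/-- second coordinate of the action as a linear functional of the parameters -/
noncomputable def zval : ZMod 2 → List (Fin t) → (Par c →ₗ[ZMod 2] ZMod 2)
  | _, [] => 0
  | s, a :: v => (if h : a ≠ c then
      (LinearMap.proj (⟨a, h⟩ : {a : Fin t // a ≠ c})).comp (LinearMap.fst _ _ _) +
      s • (LinearMap.proj (⟨a, h⟩ : {a : Fin t // a ≠ c})).comp (LinearMap.snd _ _ _)
      else 0) + zval (s + 1) v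

noncomputable def phi4 (p : Par c) (a : Fin t) (x : ZMod 2 × ZMod 2) : ZMod 2 × ZMod 2 :=
  if h : a ≠ c then (x.1 + 1, x.2 + p.1 ⟨a, h⟩ + x.1 * p.2 ⟨a, h⟩)
  else if x = (0, 0) then (1, 0) else x

lemma act_phi4 (p : Par c) (v : List (Fin t)) (hv : c ∉ v) : ∀ x : ZMod 2 × ZMod 2,
    act (phi4 c p) v x = (x.1 + (v.length : ZMod 2), x.2 + zval c x.1 v p) := by
  induction v with
  | nil => intro x; simp [zval]
  | cons a v ih =>
    intro x
    have ha : a ≠ c := by
      rintro rfl; simp at hv
    rw [act_cons, ih (fun h => hv (by simp [h]))]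
    simp only [phi4, ha, ne_eq, not_false_eq_true, dite_true, zval, List.length_cons,
      LinearMap.add_apply, LinearMap.smul_apply, LinearMap.comp_apply, LinearMap.fst_apply,
      LinearMap.snd_apply, LinearMap.proj_apply, smul_eq_mul]
    ext
    · push_cast; ring
    · push_cast; ring

lemma zmod2_add_self (x : ZMod 2) : x + x = 0 := by
  revert x; decide

lemma count_ge {w : List (Fin t)} (hw : IsCollapsing 2 w) :
    2 * t ≤ w.countP (fun a => decide (a = c)) := by
  by_contra hcon
  push Not at hcon
  have hcc := cc_infix hw c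
  have hex : ∃ a ∈ w, a = c := by
    obtain ⟨p, s, h⟩ := hcc
    exact ⟨c, by rw [← h]; simp, rfl⟩
  obtain ⟨v0, c', w1, hw0, rfl, hv0⟩ := exists_first (p := fun a => a = c) w hex
  have hcc1 : [c', c'] <:+: c' :: w1 := by
    rw [hw0] at hcc
    clear hw0 hcon hw hex
    induction v0 with
    | nil => simpa using hcc
    | cons a v0 ih =>
      rw [List.cons_append, List.infix_cons_iff] at hcc
      rcases hcc with h | h
      · obtain ⟨s, hs⟩ := h
        simp only [List.cons_append, List.cons.injEq] at hs
        exact absurd hs.1.symm (hv0 a (by simp))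
      · exact ih h (fun b hb => hv0 b (by simp [hb]))
  have hnil : [] ∈ inner c' [] w1 := by
    apply nil_mem_inner
    rw [List.infix_cons_iff] at hcc1
    rcases hcc1 with h | h
    · right
      refine ⟨rfl, ?_⟩
      obtain ⟨s, hs⟩ := h
      simp only [List.cons_append, List.nil_append, List.cons.injEq, true_and] at hs
      exact ⟨s, by rw [← hs]; simp⟩
    · left; exact h
  -- number of blocks
  have hlen : (inner c' [] w1).length = w1.countP (fun a => decide (a = c')) := by
    rw [inner_length c' w1 []]
    apply List.countP_congr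
    intro a _
    simp only [decide_eq_true_eq]
  have hcount : w.countP (fun a => decide (a = c')) =
      w1.countP (fun a => decide (a = c')) + 1 := by
    rw [hw0, List.countP_append, List.countP_cons]
    have : v0.countP (fun a => decide (a = c')) = 0 := by
      rw [List.countP_eq_zero]
      intro a ha
      simpa using hv0 a ha
    simp [this]
  set Bl := (inner c' [] w1).filter (fun v => decide (v ≠ [])) with hBl
  have hBllen : Bl.length < (inner c' [] w1).length := by
    rw [hBl]
    apply List.length_filter_lt_length_iff_exists.2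
    exact ⟨[], hnil, by simp⟩
  have ht : 1 ≤ t := by
    have := c'.2; omega
  have hBl2 : Bl.length < 2 * (t - 1) := by omega
  -- the linear system
  let T : Par c' →ₗ[ZMod 2] (Fin Bl.length → ZMod 2) :=
    LinearMap.pi (fun i => zval c' 0 (Bl.get i))
  have hfin : Module.finrank (ZMod 2) (Par c') = 2 * (t - 1) := by
    rw [Module.finrank_prod, Module.finrank_fintype_fun_eq_card]
    have : Fintype.card {a : Fin t // a ≠ c'} = t - 1 := by
      rw [Fintype.card_subtype_compl]
      simp
    rw [this]; ring
  have hker : LinearMap.ker T ≠ ⊥ := by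
    apply LinearMap.ker_ne_bot_of_finrank_lt
    rw [hfin, Module.finrank_fintype_fun_eq_card, Fintype.card_fin]
    exact hBl2
  obtain ⟨p, hp, hp0⟩ := Submodule.exists_mem_ne_zero_of_ne_bot hker
  rw [LinearMap.mem_ker] at hp
  have hzero : ∀ v ∈ inner c' [] w1, zval c' 0 v p = 0 := by
    intro v hv
    by_cases hvn : v = []
    · rw [hvn]; simp [zval]
    · have hvB : v ∈ Bl := by
        rw [hBl, List.mem_filter]
        exact ⟨hv, by simpa using hvn⟩
      obtain ⟨i, hi⟩ := List.get_of_mem hvB
      have := congrFun hp i
      simp only [T, LinearMap.pi_apply, Pi.zero_apply, hi] at this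
      exact this
  -- the action
  let φ := phi4 c' p
  have hinj : ∀ a, a ≠ c' → Function.Injective (φ a) := by
    intro a ha x y hxy
    simp only [φ, phi4, ha, ne_eq, not_false_eq_true, dite_true, Prod.mk.injEq] at hxy
    have h1 : x.1 = y.1 := add_right_cancel hxy.1
    have h2 : x.2 = y.2 := by
      have := hxy.2
      rw [h1] at this
      exact add_right_cancel (add_right_cancel this)
    exact Prod.ext h1 h2
  have hφc : ∀ x, φ c' x = if x = (0, 0) then (1, 0) else x := by
    intro x; simp [φ, phi4]
  have hdfw : df (act φ w) < 2 := by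
    apply df_lt_two_of_missing
    have h01 : v0 ++ c' :: w1 = (v0 ++ [c']) ++ w1 := by simp
    rw [hw0, h01]
    refine range_of_blocks (c := c') (e := ((0 : ZMod 2), (0 : ZMod 2)))
      (D := {x : ZMod 2 × ZMod 2 | x.2 = 0}) hinj ?_ ?_ w1 [] (v0 ++ [c']) ?_ ?_
    · intro z hz
      exact ⟨z, by rw [hφc, if_neg hz]⟩
    · rintro ⟨g1, g2⟩ hg
      simp only [Set.mem_ofPred_eq] at hg
      subst hg
      have h01 : g1 = 0 ∨ g1 = 1 := by revert g1; decide
      rcases h01 with rfl | rfl
      · exact ⟨(1, 0), by decide, by rw [hφc, hφc]; decide⟩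
      · exact ⟨(0, 0), by decide, by rw [hφc, hφc]; decide⟩
    · intro x hx
      simp only [List.reverse_nil, act_nil] at hx
      have hsurj : Function.Surjective (act φ v0) :=
        Finite.surjective_of_injective (act_injective φ v0 (fun a ha => hinj a (hv0 a ha)))
      obtain ⟨y, hy⟩ := hsurj x
      exact ⟨y, by rw [act_append, hy]; simp [hφc, hx]⟩
    · intro v hv
      have hcv := inner_not_mem c' w1 [] (by simp) v hv
      simp only [φ, Set.mem_ofPred_eq]
      rw [act_phi4 c' p v hcv]
      simp [hzero v hv]
  -- some word has deficiency two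
  have hgen : ∀ v : List (Fin t), c' ∉ v → zval c' 0 v p ≠ 0 →
      2 ≤ df (act φ ([c'] ++ v ++ [c'])) := by
    intro v hv hne
    rw [two_le_df_iff]
    have hav : act φ v (0, 0) = ((v.length : ZMod 2), zval c' 0 v p) := by
      simp only [φ]
      rw [act_phi4 c' p v hv]; simp
    refine ⟨(0, 0), ((v.length : ZMod 2), zval c' 0 v p), ?_, ?_, ?_⟩
    · intro h
      exact hne (congrArg Prod.snd h).symm
    · rintro ⟨x, hx⟩
      simp only [act_append, act_cons, act_nil] at hx
      rw [hφc (act φ v (φ c' x))] at hx
      split_ifs at hx with h1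
      · exact absurd (congrArg Prod.fst hx) (by decide)
      · exact h1 hx
    · rintro ⟨x, hx⟩
      simp only [act_append, act_cons, act_nil] at hx
      rw [hφc (act φ v (φ c' x))] at hx
      split_ifs at hx with h1
      · exact hne (congrArg Prod.snd hx).symm
      · rw [← hav] at hx
        have hinjv : Function.Injective (act φ v) :=
          act_injective φ v (fun a ha => hinj a (by rintro rfl; exact hv ha))
        have := hinjv hx
        rw [hφc] at this
        split_ifs at this with h2
        · exact absurd (congrArg Prod.fst this) (by decide)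
        · exact h2 this
  have hex2 : ∃ v : List (Fin t), c' ∉ v ∧ zval c' 0 v p ≠ 0 := by
    by_cases hp1 : p.1 = 0
    · have hp2 : p.2 ≠ 0 := by
        intro h
        exact hp0 (Prod.ext hp1 h)
      obtain ⟨a, ha⟩ := Function.ne_iff.1 hp2
      refine ⟨[a.1, a.1], ?_, ?_⟩
      · simp only [List.mem_cons, List.not_mem_nil, or_false, or_self]
        exact fun h => a.2 h.symm
      · have h1 : (a.1 : Fin t) ≠ c' := a.2
        simp only [zval, h1, ne_eq, not_false_eq_true, dite_true, LinearMap.add_apply,
          LinearMap.smul_apply, LinearMap.comp_apply, LinearMap.fst_apply, LinearMap.snd_apply,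
          LinearMap.proj_apply, smul_eq_mul, LinearMap.zero_apply]
        rw [hp1]
        simpa using ha
    · obtain ⟨a, ha⟩ := Function.ne_iff.1 hp1
      refine ⟨[a.1], ?_, ?_⟩
      · simp only [List.mem_cons, List.not_mem_nil, or_false]
        exact fun h => a.2 h.symm
      · have h1 : (a.1 : Fin t) ≠ c' := a.2
        simp only [zval, h1, ne_eq, not_false_eq_true, dite_true, LinearMap.add_apply,
          LinearMap.smul_apply, LinearMap.comp_apply, LinearMap.fst_apply, LinearMap.snd_apply,
          LinearMap.proj_apply, smul_eq_mul, LinearMap.zero_apply]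
        simpa using ha
  obtain ⟨v, hv1, hv2⟩ := hex2
  have := hw.2 (ZMod 2 × ZMod 2) φ ⟨[c'] ++ v ++ [c'], by simp, hgen v hv1 hv2⟩
  omega

end four

/-- **Lower bound** (every 2-collapsing word over `t` letters has length at least `2 t²`). -/
theorem two_mul_sq_le {t : ℕ} {w : List (Fin t)} (hw : IsCollapsing 2 w) :
    2 * t ^ 2 ≤ w.length := by
  have h1 : ∑ c : Fin t, w.countP (fun a => decide (a = c)) = w.length := by
    have := List.sum_toFinset_count_eq_length w
    rw [← this]
    rw [Finset.sum_subset (Finset.subset_univ w.toFinset)]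
    · apply Finset.sum_congr rfl
      intro c _
      rw [List.count]
      congr 1
    · intro c _ hc
      rw [List.count_eq_zero]
      simpa using hc
  rw [← h1]
  calc 2 * t ^ 2 = ∑ _c : Fin t, 2 * t := by simp; ring
    _ ≤ _ := Finset.sum_le_sum (fun c _ => count_ge c hw)

end Pool.Agent.Collapse
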