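import Pool.Agent.Collapse.Family

namespace Pool.Agent.Collapse

open Classical Finset

/-- The basic word: contains `aa, ab, aba, abba` for all letters. -/
def basicWord (t : ℕ) : List (Fin t) :=
  (List.finRange t).flatMap (fun a => (List.finRange t).flatMap (fun b => [a, b, b, a, b, a]))

lemma length_basicWord (t : ℕ) : (basicWord t).length = 6 * t ^ 2 := by
  unfold basicWord
  simp [List.length_flatMap]
  ring

lemma basicWord_infix (t : ℕ) (a b : Fin t) : [a, b, b, a, b, a] <:+: basicWord t := by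
  unfold basicWord
  refine List.IsInfix.trans (l₂ := (List.finRange t).flatMap (fun b => [a, b, b, a, b, a])) ?_ ?_
  · rw [List.flatMap_def]
    exact List.infix_of_mem_flatten (List.mem_map.2 ⟨b, List.mem_finRange b, rfl⟩)
  · rw [List.flatMap_def (l := List.finRange t)
      (f := fun a => (List.finRange t).flatMap (fun b => [a, b, b, a, b, a]))]
    exact List.infix_of_mem_flatten (List.mem_map.2 ⟨a, List.mem_finRange a, rfl⟩)

/-- The properties of a word of one level `(h, Q)`. -/
def LevelWord (t h Q : ℕ) (w : List (Fin t)) : Prop :=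
  (∀ q X1 X2 X3, 1 ≤ q → q ≤ Q → t ≤ 36 * q * h → Cls q (X1, X2, X3) →
        ∃ L a b R, (L ++ [a, b] ++ R) ++ (L ++ [a, b] ++ R) <:+: w ∧ a ∈ X2 ∧ b ∈ X3 ∧
          (∃ c ∈ L, c ∈ X1) ∧ ∀ x ∈ L ++ R, x ∉ X2 ∧ x ∉ X3) ∧
  (∀ q X1 X2 X3, 1 ≤ q → q ≤ Q → t ≤ 36 * q * h → Cls q (X1, X2, X3) →
        ∃ l c r z a y, piece (l ++ [c] ++ r) <:+: w ∧ c ∈ X1 ∧ a ∈ X2 ∧
          r ++ l = z ++ [a] ++ y ∧ (∀ b ∈ z ++ y, b ∉ X1 ∧ b ∉ X2) ∧ ∃ b ∈ z ++ y, b ∈ X3)

lemma exists_levelWord (t h Q : ℕ) (ht : 1 ≤ t) (hh : 1 ≤ h) (hh2 : h ≤ 2 * t)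
    (hQ : h * Q ≤ t) (hsm : h = 1 ∨ 18 * Q * h ≤ t) :
    ∃ w : List (Fin t), LevelWord t h Q w ∧ w.length ≤ 3576960 * t ^ 2 * Lg t := by
  obtain ⟨w1, hl1, h1⟩ := family1 t h Q ht hh hsm
  obtain ⟨w2, hl2, h2⟩ := family2 t h Q ht hh hsm
  refine ⟨w1 ++ w2, ⟨?_, ?_⟩, ?_⟩
  · intro q X1 X2 X3 a1 a2 a3 a4
    obtain ⟨L, a, b, R, b1, b2⟩ := h1 q X1 X2 X3 a1 a2 a3 a4
    exact ⟨L, a, b, R, b1.trans (List.prefix_append _ _).isInfix, b2⟩
  · intro q X1 X2 X3 a1 a2 a3 a4
    obtain ⟨l, c, r, z, a, y, b1, b2⟩ := h2 q X1 X2 X3 a1 a2 a3 a4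
    exact ⟨l, c, r, z, a, y, b1.trans (List.suffix_append _ _).isInfix, b2⟩
  · have hLg := Lg_pos t
    set L := Lg t
    have hb : h * (3 * Q * L + 1) ≤ 5 * t * L := by
      have : h * (3 * Q * L + 1) = 3 * (h * Q) * L + h := by ring
      rw [this]
      have e1 : 3 * (h * Q) * L ≤ 3 * t * L := by gcongr
      nlinarith
    have hc : h * (t / h + 1) ≤ 3 * t := by
      have : h * (t / h) ≤ t := Nat.mul_div_le t h
      nlinarith
    have e1 : w1.length ≤ 77760 * t ^ 2 * L := by
      calc w1.length ≤ (6 * h) * (2592 * t * (3 * Q * L + 1)) := hl1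
        _ = 15552 * t * (h * (3 * Q * L + 1)) := by ring
        _ ≤ 15552 * t * (5 * t * L) := Nat.mul_le_mul_left _ hb
        _ = _ := by ring
    have e2 : w2.length ≤ 3499200 * t ^ 2 * L := by
      calc w2.length ≤ (90 * h ^ 2) * (2592 * (t / h + 1) * (3 * Q * L + 1)) := hl2
        _ = 233280 * ((h * (t / h + 1)) * (h * (3 * Q * L + 1))) := by ring
        _ ≤ 233280 * ((3 * t) * (5 * t * L)) :=
            Nat.mul_le_mul_left _ (Nat.mul_le_mul hc hb)
        _ = _ := by ring
    rw [List.length_append]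
    calc w1.length + w2.length ≤ 77760 * t ^ 2 * L + 3499200 * t ^ 2 * L := Nat.add_le_add e1 e2
      _ = _ := by ring

lemma cls_card {t q : ℕ} {X1 X2 X3 : Finset (Fin t)} (h1 : Disjoint X1 X2) (h2 : Disjoint X1 X3)
    (h3 : Disjoint X2 X3) (c1 : X1.card ≤ q) (c2 : X2.card ≤ q) (c3 : X3.card ≤ q)
    (hp : q ^ 2 ≤ X1.card * X2.card * X3.card) : Cls q (X1, X2, X3) :=
  ⟨h1, h2, h3, c1, c2, c3, hp⟩

/-- **Upper bound.** Over `t ≥ 1` letters there is a 2-collapsing word of length
`O(t² log² t)`. -/
theorem exists_collapsing_two (t : ℕ) (ht : 1 ≤ t) :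
    ∃ w : List (Fin t), IsCollapsing 2 w ∧ w.length ≤ 10000000 * t ^ 2 * (Lg t) ^ 2 := by
  have : NeZero t := ⟨by omega⟩
  -- the words of the levels
  have hlev : ∀ i : ℕ, i < Lg t → ∃ w : List (Fin t), LevelWord t (2 ^ i) (t / (18 * 2 ^ i)) w ∧
      w.length ≤ 3576960 * t ^ 2 * Lg t := by
    intro i hi
    apply exists_levelWord t (2 ^ i) (t / (18 * 2 ^ i)) ht Nat.one_le_two_pow
    · have : 2 ^ i ≤ t + 1 := by
        apply Nat.pow_le_of_le_log (by omega)
        unfold Lg at hi; omega
      omega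
    · have := Nat.div_mul_le_self t (18 * 2 ^ i)
      nlinarith [Nat.zero_le (t / (18 * 2 ^ i) * 2 ^ i)]
    · right
      have := Nat.div_mul_le_self t (18 * 2 ^ i)
      nlinarith
  have hlev0 : ∃ w : List (Fin t), LevelWord t 1 t w ∧ w.length ≤ 3576960 * t ^ 2 * Lg t :=
    exists_levelWord t 1 t ht (le_refl _) (by omega) (by omega) (Or.inl rfl)
  choose! W hW1 hW2 using hlev
  obtain ⟨W0, hW01, hW02⟩ := hlev0
  set w : List (Fin t) := basicWord t ++ W0 ++ (List.range (Lg t)).flatMap W with hw
  have hbinf : basicWord t <:+: w := by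
    rw [hw]; exact ⟨[], W0 ++ (List.range (Lg t)).flatMap W, by simp⟩
  have h0inf : W0 <:+: w := by
    rw [hw]; exact ⟨basicWord t, (List.range (Lg t)).flatMap W, by simp⟩
  have hiinf : ∀ i < Lg t, W i <:+: w := by
    intro i hi
    rw [hw]
    refine List.IsInfix.trans ?_ (List.suffix_append _ _).isInfix
    rw [List.flatMap_def]
    exact List.infix_of_mem_flatten (List.mem_map.2 ⟨i, by simpa using hi, rfl⟩)
  -- every size is covered by a level
  have hcov : ∀ q, 1 ≤ q → q ≤ t → ∃ (h Q : ℕ) (v : List (Fin t)), LevelWord t h Q v ∧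
      v <:+: w ∧ q ≤ Q ∧ t ≤ 36 * q * h := by
    intro q hq1 hqt
    by_cases hlarge : t < 18 * q
    · exact ⟨1, t, W0, hW01, h0inf, hqt, by omega⟩
    · push Not at hlarge
      set m := t / (18 * q) with hm
      have hm1 : 1 ≤ m := by
        rw [hm]; exact (Nat.one_le_div_iff (by omega)).2 hlarge
      set i := Nat.log 2 m with hi
      have h1 : 2 ^ i ≤ m := Nat.pow_log_le_self 2 (by omega)
      have h2 : m < 2 ^ (i + 1) := Nat.lt_pow_succ_log_self (by norm_num) m
      have h3 : m * (18 * q) ≤ t := Nat.div_mul_le_self t (18 * q)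
      have h4 : t < (m + 1) * (18 * q) := by
        have := Nat.lt_mul_div_succ t (show 0 < 18 * q by omega)
        rw [mul_comm]
        exact this
      have hmt : m ≤ t := Nat.div_le_self _ _
      have hiL : i < Lg t := by
        unfold Lg
        have : Nat.log 2 m ≤ Nat.log 2 (t + 1) := Nat.log_mono_right (by omega)
        omega
      refine ⟨2 ^ i, t / (18 * 2 ^ i), W i, hW1 i hiL, hiinf i hiL, ?_, ?_⟩
      · rw [Nat.le_div_iff_mul_le (by positivity)]
        calc q * (18 * 2 ^ i) = 2 ^ i * (18 * q) := by ring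
          _ ≤ m * (18 * q) := Nat.mul_le_mul_right _ h1
          _ ≤ t := h3
      · have h5 : (m + 1) * (18 * q) ≤ 2 ^ (i + 1) * (18 * q) := Nat.mul_le_mul_right _ h2
        have h6 : 2 ^ (i + 1) * (18 * q) = 36 * q * 2 ^ i := by ring
        omega
  refine ⟨w, ?_, ?_⟩
  · apply isCollapsing_two_of_kill w
    · intro a b
      exact (basicWord_infix t a b).trans hbinf
    · intro N J U hN hJ hU hNJ hNU hJU
      -- pass to finsets
      set N' := N.toFinset with hN'
      set J' := J.toFinset with hJ'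
      set U' := U.toFinset with hU'
      have mN : ∀ a, a ∈ N' ↔ a ∈ N := fun a => by simp [hN']
      have mJ : ∀ a, a ∈ J' ↔ a ∈ J := fun a => by simp [hJ']
      have mU : ∀ a, a ∈ U' ↔ a ∈ U := fun a => by simp [hU']
      have dNJ : Disjoint N' J' := by
        rw [Finset.disjoint_left]; intro a ha hb
        exact Set.disjoint_left.1 hNJ ((mN a).1 ha) ((mJ a).1 hb)
      have dNU : Disjoint N' U' := by
        rw [Finset.disjoint_left]; intro a ha hb
        exact Set.disjoint_left.1 hNU ((mN a).1 ha) ((mU a).1 hb)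
      have dJU : Disjoint J' U' := by
        rw [Finset.disjoint_left]; intro a ha hb
        exact Set.disjoint_left.1 hJU ((mJ a).1 ha) ((mU a).1 hb)
      have nN : 1 ≤ N'.card := by
        obtain ⟨a, ha⟩ := hN
        exact Finset.card_pos.2 ⟨a, (mN a).2 ha⟩
      have nJ : 1 ≤ J'.card := by
        obtain ⟨a, ha⟩ := hJ
        exact Finset.card_pos.2 ⟨a, (mJ a).2 ha⟩
      have nU : 1 ≤ U'.card := by
        obtain ⟨a, ha⟩ := hU
        exact Finset.card_pos.2 ⟨a, (mU a).2 ha⟩
      have lt : ∀ S : Finset (Fin t), S.card ≤ t := fun S => by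
        have := Finset.card_le_univ S
        simpa using this
      by_cases hcase : max J'.card U'.card ≤ N'.card
      · -- large `N`
        set q := max J'.card U'.card with hq
        obtain ⟨N2, hN2, hN2c⟩ := Finset.exists_subset_card_eq hcase
        have hqJ : J'.card ≤ q := le_max_left _ _
        have hqU : U'.card ≤ q := le_max_right _ _
        have hcls : Cls q (N2, J', U') := by
          apply cls_card (dNJ.mono_left hN2) (dNU.mono_left hN2) dJU hN2c.le hqJ hqU
          rw [hN2c, pow_two, mul_assoc]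
          apply Nat.mul_le_mul_left
          rcases max_choice J'.card U'.card with h | h
          · rw [hq, h]; exact Nat.le_mul_of_pos_right _ nU
          · rw [hq, h]; exact Nat.le_mul_of_pos_left _ nJ
        obtain ⟨h, Q, v, hv, hvw, hqQ, htq⟩ := hcov q (le_trans nJ hqJ) (by
          rw [← hN2c]; exact lt _)
        obtain ⟨L, a, b, R, hinf, ha, hb, ⟨c, hcL, hc⟩, hLR⟩ :=
          hv.1 q N2 J' U' (le_trans nJ hqJ) hqQ htq hcls
        left
        have haJ := (mJ a).1 ha
        refine killSingle_of_double (hinf.trans hvw) haJ ((mU b).1 hb)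
          (fun h => Set.disjoint_left.1 hNJ h haJ) (fun h => Set.disjoint_left.1 hJU haJ h)
          ⟨c, hcL, (mN c).1 (hN2 hc)⟩ ?_
        intro x hx
        have := hLR x hx
        rwa [mJ, mU] at this
      · push Not at hcase
        by_cases hju : J'.card ≤ U'.card
        · -- `U` largest
          have hnu : N'.card < U'.card := by rwa [max_eq_right hju] at hcase
          set q := max N'.card J'.card with hq
          have hqN : N'.card ≤ q := le_max_left _ _
          have hqJ : J'.card ≤ q := le_max_right _ _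
          have hqU : q ≤ U'.card := max_le hnu.le hju
          obtain ⟨T, hT, hTc⟩ := Finset.exists_subset_card_eq hqU
          have hcls : Cls q (N', J', T) := by
            apply cls_card dNJ (dNU.mono_right hT) (dJU.mono_right hT) hqN hqJ hTc.le
            rw [hTc, pow_two]
            apply Nat.mul_le_mul_right
            rcases max_choice N'.card J'.card with h | h
            · rw [hq, h]; exact Nat.le_mul_of_pos_right _ nJ
            · rw [hq, h]; exact Nat.le_mul_of_pos_left _ nN
          obtain ⟨h, Q, v, hv, hvw, hqQ, htq⟩ := hcov q (le_trans nN hqN) (hqU.trans (lt _))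
          obtain ⟨l, c, r, z, a, y, hinf, hc, ha, hcyc, hzy, b, hb, hbT⟩ :=
            hv.2 q N' J' T (le_trans nN hqN) hqQ htq hcls
          right
          refine killSwap_of_piece ((mN c).1 hc) (hinf.trans hvw) ((mJ a).1 ha) hcyc ?_
            ⟨b, hb, (mU b).1 (hT hbT)⟩
          intro x hx
          have := hzy x hx
          rwa [mN, mJ] at this
        · -- `J` largest
          push Not at hju
          have hnj : N'.card < J'.card := by rwa [max_eq_left hju.le] at hcase
          set q := max N'.card U'.card with hq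
          have hqN : N'.card ≤ q := le_max_left _ _
          have hqU : U'.card ≤ q := le_max_right _ _
          have hqJ : q ≤ J'.card := max_le hnj.le hju.le
          obtain ⟨T, hT, hTc⟩ := Finset.exists_subset_card_eq hqJ
          have hcls : Cls q (N', U', T) := by
            apply cls_card dNU (dNJ.mono_right hT) (dJU.symm.mono_right hT) hqN hqU hTc.le
            rw [hTc, pow_two]
            apply Nat.mul_le_mul_right
            rcases max_choice N'.card U'.card with h | h
            · rw [hq, h]; exact Nat.le_mul_of_pos_right _ nU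
            · rw [hq, h]; exact Nat.le_mul_of_pos_left _ nN
          obtain ⟨h, Q, v, hv, hvw, hqQ, htq⟩ := hcov q (le_trans nN hqN) (hqJ.trans (lt _))
          obtain ⟨l, c, r, z, a, y, hinf, hc, ha, hcyc, hzy, b, hb, hbT⟩ :=
            hv.2 q N' U' T (le_trans nN hqN) hqQ htq hcls
          left
          refine killSingle_of_piece ((mN c).1 hc) (hinf.trans hvw) ((mU a).1 ha) hcyc ?_
            ⟨b, hb, (mJ b).1 (hT hbT)⟩
          intro x hx
          have := hzy x hx
          rwa [mN, mU] at this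
  · rw [hw, List.length_append, List.length_append, length_basicWord, List.length_flatMap]
    have h1 : ∀ n ∈ (List.range (Lg t)).map (fun i => (W i).length),
        n ≤ 3576960 * t ^ 2 * Lg t := by
      intro n hn
      rw [List.mem_map] at hn
      obtain ⟨i, hi, rfl⟩ := hn
      exact hW2 i (by simpa using hi)
    have h2 := List.sum_le_card_nsmul _ _ h1
    simp only [List.length_map, List.length_range, smul_eq_mul] at h2
    have hLg := Lg_pos t
    set L := Lg t
    have e1 : t ^ 2 ≤ t ^ 2 * L ^ 2 := Nat.le_mul_of_pos_right _ (by positivity)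
    have e2 : t ^ 2 * L ≤ t ^ 2 * L ^ 2 := by
      apply Nat.mul_le_mul_left; nlinarith
    have e3 : L * (3576960 * t ^ 2 * L) = 3576960 * (t ^ 2 * L ^ 2) := by ring
    have e4 : 3576960 * t ^ 2 * L = 3576960 * (t ^ 2 * L) := by ring
    have e5 : 10000000 * t ^ 2 * L ^ 2 = 10000000 * (t ^ 2 * L ^ 2) := by ring
    rw [e3] at h2
    rw [e4] at hW02
    rw [e5]
    omega

end Pool.Agent.Collapse
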