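import Pool.Agent.Collapse.Kill

namespace Pool.Agent.Collapse

open Classical

variable {A : Type*}

/-- For each position `i` the word `x x^{(i)} x`, where `x^{(i)}` is `x` with the letter at
position `i` deleted; then `x x`. -/
def xw (x : List A) : List A :=
  (List.range x.length).flatMap (fun i => x ++ x.eraseIdx i ++ x) ++ (x ++ x)

/-- the forward and the backward word. -/
def piece (x : List A) : List A := xw x ++ xw x.reverse

lemma length_xw (x : List A) : (xw x).length ≤ 3 * x.length ^ 2 + 2 * x.length := by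
  unfold xw
  rw [List.length_append, List.length_append, List.length_flatMap]
  have : ((List.range x.length).map (fun i => (x ++ x.eraseIdx i ++ x).length)).sum ≤
      x.length * (3 * x.length) := by
    have h1 : ∀ n ∈ ((List.range x.length).map (fun i => (x ++ x.eraseIdx i ++ x).length)),
        n ≤ 3 * x.length := by
      intro n hn
      rw [List.mem_map] at hn
      obtain ⟨i, _, rfl⟩ := hn
      have := List.length_eraseIdx_le x i
      simp only [List.length_append]
      omega
    have := List.sum_le_card_nsmul _ _ h1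
    simpa using this
  nlinarith

lemma length_piece (x : List A) (hx : 1 ≤ x.length) : (piece x).length ≤ 10 * x.length ^ 2 := by
  unfold piece
  have h1 := length_xw x
  have h2 := length_xw x.reverse
  rw [List.length_append]
  rw [List.length_reverse] at h2
  nlinarith

lemma chunk_infix (x : List A) {i : ℕ} (hi : i < x.length) :
    x ++ x.eraseIdx i ++ x <:+: xw x := by
  unfold xw
  refine List.IsInfix.trans ?_ (List.prefix_append _ _).isInfix
  rw [List.flatMap_def]
  exact List.infix_of_mem_flatten (by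
    rw [List.mem_map]
    exact ⟨i, by simpa using hi, rfl⟩)

lemma xw_full (l r : List A) (c : A) :
    [c] ++ (r ++ l) ++ [c] <:+: xw (l ++ [c] ++ r) := by
  unfold xw
  refine List.IsInfix.trans ?_ (List.suffix_append _ _).isInfix
  exact ⟨l, r, by simp⟩

lemma xw_del (l r : List A) (c : A) (y1 : List A) (b : A) (y2 : List A)
    (h : r ++ l = y1 ++ b :: y2) :
    [c] ++ (y1 ++ y2) ++ [c] <:+: xw (l ++ [c] ++ r) := by
  rw [List.append_eq_append_iff] at h
  have hcases : (∃ l1, l = l1 ++ b :: y2 ∧ y1 = r ++ l1) ∨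
      (∃ r2, r = y1 ++ b :: r2 ∧ y2 = r2 ++ l) := by
    rcases h with ⟨a', h1, h2⟩ | ⟨c', h1, h2⟩
    · left; exact ⟨a', h2, h1⟩
    · rcases c' with _ | ⟨d, c'⟩
      · left
        refine ⟨[], ?_, ?_⟩
        · simpa using h2.symm
        · simpa using h1.symm
      · right
        simp only [List.cons_append, List.cons.injEq] at h2
        obtain ⟨rfl, h2⟩ := h2
        exact ⟨c', h1, h2⟩
  rcases hcases with ⟨l1, rfl, rfl⟩ | ⟨r2, rfl, rfl⟩
  · -- deletion inside `l`
    have hlt : l1.length < (l1 ++ b :: y2 ++ [c] ++ r).length := by simp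
    refine List.IsInfix.trans ?_ (chunk_infix _ hlt)
    have he : (l1 ++ b :: y2 ++ [c] ++ r).eraseIdx l1.length = l1 ++ (y2 ++ [c] ++ r) := by
      have : l1 ++ b :: y2 ++ [c] ++ r = l1 ++ (b :: (y2 ++ [c] ++ r)) := by simp
      rw [this, List.eraseIdx_append_of_length_le (le_refl _)]
      simp
    rw [he]
    exact ⟨l1 ++ b :: y2, r ++ (l1 ++ b :: y2 ++ [c] ++ r), by simp⟩
  · -- deletion inside `r`
    have hlt : (l ++ [c] ++ y1).length < (l ++ [c] ++ (y1 ++ b :: r2)).length := by
      simp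
    refine List.IsInfix.trans ?_ (chunk_infix _ hlt)
    have he : (l ++ [c] ++ (y1 ++ b :: r2)).eraseIdx (l ++ [c] ++ y1).length =
        l ++ [c] ++ y1 ++ r2 := by
      have : l ++ [c] ++ (y1 ++ b :: r2) = (l ++ [c] ++ y1) ++ (b :: r2) := by simp
      rw [this, List.eraseIdx_append_of_length_le (le_refl _)]
      simp
    rw [he]
    exact ⟨l ++ [c] ++ (y1 ++ b :: r2) ++ l, y1 ++ b :: r2, by simp⟩

/-- one letter of `U`, a letter of `J` before it, all deletions present -/
lemma killSingle_aux {w : List A} {N J U : Set A} {c : A} (hc : c ∈ N) {z1 z2 : List A} {b : A}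
    (hb : b ∈ U) (hz : ∀ a ∈ z1 ++ z2, a ∉ N ∧ a ∉ U) (hJ : ∃ a ∈ z1, a ∈ J)
    (h0 : [c] ++ (z1 ++ [b] ++ z2) ++ [c] <:+: w)
    (h1 : ∀ y1 d y2, z1 ++ [b] ++ z2 = y1 ++ d :: y2 → [c] ++ (y1 ++ y2) ++ [c] <:+: w) :
    KillSingle w N J U := by
  obtain ⟨a, ha, haJ⟩ := hJ
  rcases Nat.even_or_odd (z1.countP (fun a => decide (a ∈ J))) with hpar | hpar
  · obtain ⟨z3, z4, rfl⟩ := List.append_of_mem ha
    refine ⟨c, hc, c, hc, b, hb, z3 ++ z4, z2, ?_, ?_, ?_⟩
    · intro d hd
      apply hz
      simp only [List.mem_append, List.mem_cons] at hd ⊢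
      tauto
    · have : (z3 ++ a :: z4).countP (fun a => decide (a ∈ J)) =
          (z3 ++ z4).countP (fun a => decide (a ∈ J)) + 1 := by
        simp only [List.countP_append, List.countP_cons]
        simp [haJ]
        omega
      rw [this] at hpar
      rcases Nat.even_or_odd ((z3 ++ z4).countP (fun a => decide (a ∈ J))) with h | h
      · exact absurd hpar (by simpa using h.add_one)
      · exact h
    · have := h1 z3 a (z4 ++ [b] ++ z2) (by simp)
      simpa using this
  · exact ⟨c, hc, c, hc, b, hb, z1, z2, hz, hpar, h0⟩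

lemma killSingle_of_piece {w : List A} {N J U : Set A} {l r : List A} {c : A} (hc : c ∈ N)
    (hp : piece (l ++ [c] ++ r) <:+: w) {z y : List A} {b : A} (hb : b ∈ U)
    (hcyc : r ++ l = z ++ [b] ++ y) (hz : ∀ a ∈ z ++ y, a ∉ N ∧ a ∉ U)
    (hJ : ∃ a ∈ z ++ y, a ∈ J) : KillSingle w N J U := by
  have hf : xw (l ++ [c] ++ r) <:+: w :=
    List.IsInfix.trans (List.prefix_append _ _).isInfix hp
  have hbk : xw (r.reverse ++ [c] ++ l.reverse) <:+: w := by
    refine List.IsInfix.trans ?_ hp
    unfold piece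
    have : (l ++ [c] ++ r).reverse = r.reverse ++ [c] ++ l.reverse := by simp
    rw [this]
    exact (List.suffix_append _ _).isInfix
  obtain ⟨a, ha, haJ⟩ := hJ
  rw [List.mem_append] at ha
  rcases ha with ha | ha
  · apply killSingle_aux (c := c) (z1 := z) (z2 := y) hc hb hz ⟨a, ha, haJ⟩
    · rw [← hcyc]
      exact (xw_full l r c).trans hf
    · intro y1 d y2 h
      rw [← hcyc] at h
      exact (xw_del l r c y1 d y2 h).trans hf
  · have hcyc' : l.reverse ++ r.reverse = y.reverse ++ [b] ++ z.reverse := by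
      have := congrArg List.reverse hcyc
      simpa using this
    apply killSingle_aux (c := c) (z1 := y.reverse) (z2 := z.reverse) hc hb ?_
      ⟨a, by simpa using ha, haJ⟩
    · rw [← hcyc']
      exact (xw_full r.reverse l.reverse c).trans hbk
    · intro y1 d y2 h
      rw [← hcyc'] at h
      exact (xw_del r.reverse l.reverse c y1 d y2 h).trans hbk
    · intro a ha
      apply hz
      simp only [List.mem_append, List.mem_reverse] at ha ⊢
      tauto

lemma killSwap_of_piece {w : List A} {N J U : Set A} {l r : List A} {c : A} (hc : c ∈ N)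
    (hp : piece (l ++ [c] ++ r) <:+: w) {z y : List A} {a : A} (ha : a ∈ J)
    (hcyc : r ++ l = z ++ [a] ++ y) (hz : ∀ b ∈ z ++ y, b ∉ N ∧ b ∉ J)
    (hU : ∃ b ∈ z ++ y, b ∈ U) : KillSwap w N J U := by
  have hf : xw (l ++ [c] ++ r) <:+: w :=
    List.IsInfix.trans (List.prefix_append _ _).isInfix hp
  have hbk : xw (r.reverse ++ [c] ++ l.reverse) <:+: w := by
    refine List.IsInfix.trans ?_ hp
    unfold piece
    have : (l ++ [c] ++ r).reverse = r.reverse ++ [c] ++ l.reverse := by simp
    rw [this]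
    exact (List.suffix_append _ _).isInfix
  have hcyc' : l.reverse ++ r.reverse = y.reverse ++ [a] ++ z.reverse := by
    have := congrArg List.reverse hcyc
    simpa using this
  refine ⟨c, hc, a, ha, z, y, hz, hU, ?_, ?_, ?_, ?_⟩
  · rw [← hcyc]
    exact (xw_full l r c).trans hf
  · intro y1 d y2 h
    have := (xw_del l r c (z ++ [a] ++ y1) d y2 (by rw [hcyc, h]; simp)).trans hf
    simpa using this
  · rw [← hcyc']
    exact (xw_full r.reverse l.reverse c).trans hbk
  · intro z1 d z2 h
    have := (xw_del r.reverse l.reverse c (y.reverse ++ [a] ++ z1) d z2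
      (by rw [hcyc', h]; simp)).trans hbk
    simpa using this

lemma exists_last {p : A → Prop} (L : List A) (h : ∃ a ∈ L, p a) :
    ∃ L1 c L2, L = L1 ++ c :: L2 ∧ p c ∧ ∀ a ∈ L2, ¬ p a := by
  induction L with
  | nil => simp at h
  | cons a L ih =>
    by_cases hL : ∃ b ∈ L, p b
    · obtain ⟨L1, c, L2, h1, h2, h3⟩ := ih hL
      exact ⟨a :: L1, c, L2, by rw [h1]; simp, h2, h3⟩
    · obtain ⟨b, hb, hpb⟩ := h
      rw [List.mem_cons] at hb
      rcases hb with rfl | hb
      · refine ⟨[], b, L, by simp, hpb, ?_⟩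
        intro x hx hpx
        exact hL ⟨x, hx, hpx⟩
      · exact absurd ⟨b, hb, hpb⟩ hL

lemma exists_first {p : A → Prop} (L : List A) (h : ∃ a ∈ L, p a) :
    ∃ L1 c L2, L = L1 ++ c :: L2 ∧ p c ∧ ∀ a ∈ L1, ¬ p a := by
  induction L with
  | nil => simp at h
  | cons a L ih =>
    by_cases ha : p a
    · exact ⟨[], a, L, by simp, ha, by simp⟩
    · obtain ⟨b, hb, hpb⟩ := h
      rw [List.mem_cons] at hb
      rcases hb with rfl | hb
      · exact absurd hpb ha
      · obtain ⟨L1, c, L2, h1, h2, h3⟩ := ih ⟨b, hb, hpb⟩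
        refine ⟨a :: L1, c, L2, by rw [h1]; simp, h2, ?_⟩
        intro x hx
        rw [List.mem_cons] at hx
        rcases hx with rfl | hx
        · exact ha
        · exact h3 x hx

/-- the doubled word with a single adjacent pair `a b`, `a ∈ J`, `b ∈ U` -/
lemma killSingle_of_double {w : List A} {N J U : Set A} {L R : List A} {a b : A}
    (hp : (L ++ [a, b] ++ R) ++ (L ++ [a, b] ++ R) <:+: w) (ha : a ∈ J) (hb : b ∈ U)
    (haN : a ∉ N) (haU : a ∉ U)
    (hLN : ∃ c ∈ L, c ∈ N) (hLR : ∀ x ∈ L ++ R, x ∉ J ∧ x ∉ U) : KillSingle w N J U := by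
  obtain ⟨L1, c, L2, hL, hc, hL2⟩ := exists_last (p := fun x => x ∈ N) L hLN
  have hRL : ∃ x ∈ R ++ L, x ∈ N := by
    obtain ⟨x, hx, hxN⟩ := hLN
    exact ⟨x, by simp [hx], hxN⟩
  obtain ⟨R1, c', R2, hR, hc', hR1⟩ := exists_first (p := fun x => x ∈ N) (R ++ L) hRL
  refine ⟨c, hc, c', hc', b, hb, L2 ++ [a], R1, ?_, ?_, ?_⟩
  · intro x hx
    simp only [List.mem_append, List.mem_singleton] at hx
    rcases hx with (hx | rfl) | hx
    · exact ⟨hL2 x hx, (hLR x (by rw [hL]; simp [hx])).2⟩
    · exact ⟨haN, haU⟩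
    · refine ⟨hR1 x hx, ?_⟩
      have hx' : x ∈ R ++ L := by rw [hR]; simp [hx]
      apply (hLR x _).2
      simp only [List.mem_append] at hx' ⊢
      tauto
  · have h0 : L2.countP (fun a => decide (a ∈ J)) = 0 := by
      rw [List.countP_eq_zero]
      intro x hx
      simp only [decide_eq_true_eq]
      exact (hLR x (by rw [hL]; simp [hx])).1
    rw [List.countP_append, h0]
    simp [ha]
  · refine List.IsInfix.trans ?_ hp
    refine ⟨L1, R2 ++ ([a, b] ++ R), ?_⟩
    have : (L ++ [a, b] ++ R) ++ (L ++ [a, b] ++ R) =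
        L ++ [a, b] ++ (R ++ L) ++ ([a, b] ++ R) := by simp
    rw [this, hR]
    conv_rhs => rw [hL]
    simp

end Pool.Agent.Collapse
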